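import Mathlib

set_option autoImplicit false
open MeasureTheory Real

namespace Pool.Agent.H154Z.Gabor

/-- The shifted integer lattice `(ℤ + s) × ℤ`. -/
def Lat (s : ℝ) : Set (ℝ × ℝ) := Set.range fun p : ℤ × ℤ => (((p.1 : ℝ) + s, (p.2 : ℝ)) : ℝ × ℝ)

/-- The shifted integers. -/
def Zs (s : ℝ) : Set ℝ := Set.range fun k : ℤ => (k : ℝ) + s

lemma lat_eq (s : ℝ) : Lat s = Zs s ×ˢ Zs 0 := by
  ext ⟨x, y⟩
  simp only [Lat, Zs, Set.mem_range, Set.mem_prod, Prod.mk.injEq, add_zero, Prod.exists]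
  constructor
  · rintro ⟨a, b, h1, h2⟩
    exact ⟨⟨a, h1⟩, ⟨b, h2⟩⟩
  · rintro ⟨⟨a, h1⟩, ⟨b, h2⟩⟩
    exact ⟨a, b, h1, h2⟩

lemma zs_inter (s a R : ℝ) : Zs s ∩ Set.Ico a (a + R) =
    (fun k : ℤ => (k : ℝ) + s) '' (Finset.Ico ⌈a - s⌉ ⌈a + R - s⌉ : Finset ℤ) := by
  ext x
  simp only [Zs, Set.mem_inter_iff, Set.mem_range, Set.mem_Ico, Set.mem_image, Finset.coe_Ico,
    Int.ceil_le, Int.lt_ceil]
  constructor
  · rintro ⟨⟨k, rfl⟩, h1, h2⟩
    exact ⟨k, ⟨by linarith, by linarith⟩, rfl⟩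
  · rintro ⟨k, ⟨h1, h2⟩, rfl⟩
    exact ⟨⟨k, rfl⟩, by linarith, by linarith⟩

lemma zs_finite (s a R : ℝ) : (Zs s ∩ Set.Ico a (a + R)).Finite := by
  rw [zs_inter]
  exact (Finset.finite_toSet _).image _

lemma zs_ncard (s a R : ℝ) (hR : 0 ≤ R) :
    R - 1 ≤ ((Zs s ∩ Set.Ico a (a + R)).ncard : ℝ) ∧
      ((Zs s ∩ Set.Ico a (a + R)).ncard : ℝ) ≤ R + 1 := by
  have hinj : Function.Injective fun k : ℤ => (k : ℝ) + s := by
    intro k l h
    simpa using h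
  rw [zs_inter, Set.ncard_image_of_injective _ hinj, Set.ncard_coe_finset, Int.card_Ico]
  have hle : ⌈a - s⌉ ≤ ⌈a + R - s⌉ := Int.ceil_mono (by linarith)
  have e : (((⌈a + R - s⌉ - ⌈a - s⌉).toNat : ℕ) : ℝ) = (⌈a + R - s⌉ : ℝ) - (⌈a - s⌉ : ℝ) := by
    have := Int.toNat_of_nonneg (sub_nonneg.2 hle)
    have h2 : (((⌈a + R - s⌉ - ⌈a - s⌉).toNat : ℤ) : ℝ) = ((⌈a + R - s⌉ - ⌈a - s⌉ : ℤ) : ℝ) := by
      rw [this]
    push_cast at h2
    exact h2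
  rw [e]
  have h1 := Int.le_ceil (a - s)
  have h2 := Int.ceil_lt_add_one (a - s)
  have h3 := Int.le_ceil (a + R - s)
  have h4 := Int.ceil_lt_add_one (a + R - s)
  constructor <;> linarith

lemma lat_finite (s : ℝ) (z : ℝ × ℝ) (R : ℝ) :
    (Lat s ∩ (Set.Ico z.1 (z.1 + R) ×ˢ Set.Ico z.2 (z.2 + R))).Finite := by
  rw [lat_eq, Set.prod_inter_prod]
  exact (zs_finite _ _ _).prod (zs_finite _ _ _)

lemma lat_ncard (s : ℝ) (z : ℝ × ℝ) (R : ℝ) (hR : 1 ≤ R) :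
    (R - 1) ^ 2 ≤ ((Lat s ∩ (Set.Ico z.1 (z.1 + R) ×ˢ Set.Ico z.2 (z.2 + R))).ncard : ℝ) ∧
      ((Lat s ∩ (Set.Ico z.1 (z.1 + R) ×ˢ Set.Ico z.2 (z.2 + R))).ncard : ℝ) ≤ (R + 1) ^ 2 := by
  rw [lat_eq, Set.prod_inter_prod, Set.ncard_prod]
  obtain ⟨a1, a2⟩ := zs_ncard s z.1 R (by linarith)
  obtain ⟨b1, b2⟩ := zs_ncard 0 z.2 R (by linarith)
  push_cast
  rw [sq, sq]
  exact ⟨mul_le_mul a1 b1 (by linarith) (Nat.cast_nonneg _),
    mul_le_mul a2 b2 (Nat.cast_nonneg _) (by linarith)⟩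

lemma lat_disjoint : Disjoint (Lat 0) (Lat (1 / 4)) := by
  rw [Set.disjoint_left]
  rintro _ ⟨⟨a, b⟩, rfl⟩ ⟨⟨c, d⟩, h⟩
  simp only [Prod.mk.injEq, add_zero] at h
  have h1 : (4 * c + 1 : ℝ) = 4 * a := by linarith [h.1]
  have h2 : (4 * c + 1 : ℤ) = 4 * a := by exact_mod_cast h1
  omega

/-- The index set. -/
def Gam : Set (ℝ × ℝ) := Lat 0 ∪ Lat (1 / 4)

lemma gam_finite (z : ℝ × ℝ) (R : ℝ) :
    (Gam ∩ (Set.Ico z.1 (z.1 + R) ×ˢ Set.Ico z.2 (z.2 + R))).Finite := by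
  rw [Gam, Set.union_inter_distrib_right]
  exact (lat_finite _ _ _).union (lat_finite _ _ _)

lemma gam_ncard (z : ℝ × ℝ) (R : ℝ) (hR : 1 ≤ R) :
    2 * (R - 1) ^ 2 ≤ ((Gam ∩ (Set.Ico z.1 (z.1 + R) ×ˢ Set.Ico z.2 (z.2 + R))).ncard : ℝ) ∧
      ((Gam ∩ (Set.Ico z.1 (z.1 + R) ×ˢ Set.Ico z.2 (z.2 + R))).ncard : ℝ) ≤ 2 * (R + 1) ^ 2 := by
  rw [Gam, Set.union_inter_distrib_right, Set.ncard_union_eq
    (lat_disjoint.mono Set.inter_subset_left Set.inter_subset_left) (lat_finite _ _ _)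
    (lat_finite _ _ _)]
  obtain ⟨a1, a2⟩ := lat_ncard 0 z R hR
  obtain ⟨b1, b2⟩ := lat_ncard (1 / 4) z R hR
  push_cast
  constructor <;> linarith

theorem gam_sep : ∃ C : ℕ, ∀ z : ℝ × ℝ,
      (Gam ∩ (Set.Ico z.1 (z.1 + 1) ×ˢ Set.Ico z.2 (z.2 + 1))).Finite ∧
      (Gam ∩ (Set.Ico z.1 (z.1 + 1) ×ˢ Set.Ico z.2 (z.2 + 1))).ncard ≤ C := by
  refine ⟨8, fun z => ⟨gam_finite z 1, ?_⟩⟩
  have := (gam_ncard z 1 le_rfl).2
  have h : ((Gam ∩ (Set.Ico z.1 (z.1 + 1) ×ˢ Set.Ico z.2 (z.2 + 1))).ncard : ℝ) ≤ ((8 : ℕ) : ℝ) := by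
    push_cast
    linarith
  exact_mod_cast h

theorem gam_density : Filter.liminf (fun R : ℝ => ⨅ z : ℝ × ℝ,
        ((Gam ∩ (Set.Ico z.1 (z.1 + R) ×ˢ Set.Ico z.2 (z.2 + R))).ncard : ℝ) / R ^ 2)
      Filter.atTop = 2 := by
  refine Filter.Tendsto.liminf_eq ?_
  have hinv : Filter.Tendsto (fun R : ℝ => R⁻¹) Filter.atTop (nhds 0) := tendsto_inv_atTop_zero
  have t1 : Filter.Tendsto (fun R : ℝ => 2 * (1 - R⁻¹) ^ 2) Filter.atTop (nhds 2) := by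
    have := ((hinv.const_sub 1).pow 2).const_mul 2
    simpa using this
  have t2 : Filter.Tendsto (fun R : ℝ => 2 * (1 + R⁻¹) ^ 2) Filter.atTop (nhds 2) := by
    have := ((hinv.const_add 1).pow 2).const_mul 2
    simpa using this
  refine tendsto_of_tendsto_of_tendsto_of_le_of_le' t1 t2 ?_ ?_
  · filter_upwards [Filter.eventually_ge_atTop (1 : ℝ)] with R hR
    refine le_ciInf fun z => ?_
    have hp : 0 < R := by linarith
    rw [le_div_iff₀ (by positivity)]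
    refine le_trans (le_of_eq ?_) (gam_ncard z R hR).1
    field_simp
  · filter_upwards [Filter.eventually_ge_atTop (1 : ℝ)] with R hR
    have hp : 0 < R := by linarith
    refine ciInf_le_of_le ⟨0, ?_⟩ (0, 0) ?_
    · rintro _ ⟨z, rfl⟩
      positivity
    · rw [div_le_iff₀ (by positivity)]
      refine (gam_ncard (0, 0) R hR).2.trans (le_of_eq ?_)
      field_simp

/-- The periodised squared window. -/
noncomputable def Per (g : ℝ → ℂ) (s t : ℝ) : ℝ := ‖g (t - (((⌈t - s - 1 / 2⌉ : ℤ) : ℝ) + s))‖ ^ 2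

lemma per_meas (g : ℝ → ℂ) (hg : Continuous g) (s : ℝ) : Measurable (Per g s) := by
  unfold Per
  have h1 : Measurable fun t : ℝ => ((⌈t - s - 1 / 2⌉ : ℤ) : ℝ) := by
    have : Measurable fun t : ℝ => (⌈t - s - 1 / 2⌉ : ℤ) :=
      Int.measurable_ceil.comp (by fun_prop)
    exact (measurable_from_top (f := fun k : ℤ => (k : ℝ))).comp this
  have h2 : Measurable fun t : ℝ => t - (((⌈t - s - 1 / 2⌉ : ℤ) : ℝ) + s) :=
    measurable_id.sub (h1.add_const s)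
  exact ((hg.measurable.comp h2).norm).pow_const 2

/-- One row of the Gabor system: Parseval on an interval of length one. -/
lemma row_hasSum (g : ℝ → ℂ) (hg : Continuous g) (hb : ∀ t, ‖g t‖ ≤ 1)
    (hs : ∀ t, 1 / 2 ≤ |t| → g t = 0) (f : ℝ → ℂ) (hf : MemLp f 2 volume) (x : ℝ) :
    HasSum (fun m : ℤ => ‖∫ t : ℝ, f t * (starRingEnd ℂ)
          (Complex.exp (2 * (Real.pi : ℂ) * Complex.I * (((m : ℝ) : ℝ) : ℂ) * (t : ℂ))
            * g (t - x))‖ ^ 2)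
      (∫ t in (x - 1 / 2)..(x - 1 / 2 + 1), ‖f t‖ ^ 2 * ‖g (t - x)‖ ^ 2) := by
  set u : ℝ → ℂ := fun t => f t * (starRingEnd ℂ) (g (t - x)) with hu
  have hab : x - 1 / 2 < x - 1 / 2 + 1 := by linarith
  have hL2 : MemLp u 2 volume := by
    refine hf.of_le ?_ (Filter.Eventually.of_forall fun t => ?_)
    · refine hf.1.mul ?_
      exact (Complex.continuous_conj.comp (hg.comp (by fun_prop))).aestronglyMeasurable
    · rw [hu]
      simp only [norm_mul, Complex.norm_conj]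
      exact mul_le_of_le_one_right (norm_nonneg _) (hb _)
  have h := hasSum_sq_fourierCoeffOn hab (hL2.restrict _)
  have e1 : (x - 1 / 2 + 1 - (x - 1 / 2)) = 1 := by ring
  convert h using 1
  · ext m
    rw [fourierCoeffOn_eq_integral]
    simp only [fourier_coe_apply, e1, div_one, one_smul, Complex.ofReal_one]
    congr 2
    rw [intervalIntegral.integral_of_le hab.le]
    rw [setIntegral_eq_integral_of_forall_compl_eq_zero]
    · congr 1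
      ext t
      simp only [hu, map_mul, smul_eq_mul, ← Complex.exp_conj, Complex.conj_ofReal, Complex.conj_I,
        map_ofNat]
      push_cast
      ring_nf
    · intro t ht
      have : g (t - x) = 0 := by
        apply hs
        simp only [Set.mem_Ioc, not_and_or, not_lt, not_le] at ht
        rcases ht with ht | ht
        · rw [le_abs]; right; linarith
        · rw [le_abs]; left; linarith
      simp [hu, this]
  · rw [e1, inv_one, one_smul]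
    congr 1
    ext t
    simp [hu, mul_pow]

lemma per_le (g : ℝ → ℂ) (hb : ∀ t, ‖g t‖ ≤ 1) (s t : ℝ) : Per g s t ≤ 1 := by
  unfold Per
  exact pow_le_one₀ (norm_nonneg _) (hb _)

lemma per_nonneg (g : ℝ → ℂ) (s t : ℝ) : 0 ≤ Per g s t := by
  unfold Per
  positivity

lemma per_integrable (g : ℝ → ℂ) (hg : Continuous g) (hb : ∀ t, ‖g t‖ ≤ 1)
    (f : ℝ → ℂ) (hf : MemLp f 2 volume) (s : ℝ) :
    Integrable (fun t => ‖f t‖ ^ 2 * Per g s t) := by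
  have hi : Integrable (fun t => ‖f t‖ ^ 2) := (memLp_two_iff_integrable_sq_norm hf.1).1 hf
  refine hi.mono' (hi.1.mul (per_meas g hg s).aestronglyMeasurable)
    (Filter.Eventually.of_forall fun t => ?_)
  rw [Real.norm_eq_abs, abs_of_nonneg (mul_nonneg (sq_nonneg _) (per_nonneg g s t))]
  exact mul_le_of_le_one_right (sq_nonneg _) (per_le g hb s t)

lemma lat_hasSum (g : ℝ → ℂ) (hg : Continuous g) (hb : ∀ t, ‖g t‖ ≤ 1)
    (hs : ∀ t, 1 / 2 ≤ |t| → g t = 0) (f : ℝ → ℂ) (hf : MemLp f 2 volume) (s : ℝ) :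
    HasSum ((fun γ : ℝ × ℝ => ‖∫ t : ℝ, f t * (starRingEnd ℂ)
          (Complex.exp (2 * (Real.pi : ℂ) * Complex.I * ((γ.2 : ℝ) : ℂ) * (t : ℂ))
            * g (t - γ.1))‖ ^ 2) ∘ ((↑) : Lat s → ℝ × ℝ))
      (∫ t, ‖f t‖ ^ 2 * Per g s t) := by
  set F : ℝ × ℝ → ℝ := fun γ : ℝ × ℝ => ‖∫ t : ℝ, f t * (starRingEnd ℂ)
          (Complex.exp (2 * (Real.pi : ℂ) * Complex.I * ((γ.2 : ℝ) : ℂ) * (t : ℂ))
            * g (t - γ.1))‖ ^ 2 with hF
  have hinj : Function.Injective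
      fun p : ℤ × ℤ => (((p.1 : ℝ) + s, (p.2 : ℝ)) : ℝ × ℝ) := by
    rintro ⟨a, b⟩ ⟨c, d⟩ h
    simp only [Prod.mk.injEq, add_left_inj, Int.cast_inj] at h
    exact Prod.ext h.1 h.2
  have hrow : ∀ k : ℤ, HasSum (fun m : ℤ => F ((k : ℝ) + s, (m : ℝ)))
      (∫ t in (s - 1 / 2 + k)..(s - 1 / 2 + k + 1), ‖f t‖ ^ 2 * Per g s t) := by
    intro k
    have h := row_hasSum g hg hb hs f hf ((k : ℝ) + s)
    have e : (k : ℝ) + s - 1 / 2 = s - 1 / 2 + k := by ring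
    rw [e] at h
    convert h using 1
    rw [intervalIntegral.integral_of_le (by linarith), intervalIntegral.integral_of_le (by linarith)]
    refine setIntegral_congr_fun measurableSet_Ioc fun t ht => ?_
    have hc : ⌈t - s - 1 / 2⌉ = k := by
      rw [Int.ceil_eq_iff]
      constructor <;> linarith [ht.1, ht.2]
    simp only [Per, hc]
  have hcol := (per_integrable g hg hb f hf s).hasSum_intervalIntegral (s - 1 / 2)
  have hsum : Summable fun p : ℤ × ℤ => F ((p.1 : ℝ) + s, (p.2 : ℝ)) := by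
    rw [summable_prod_of_nonneg (fun p => by simp only [hF, Pi.zero_apply]; positivity)]
    refine ⟨fun k => (hrow k).summable, ?_⟩
    simp only [(hrow _).tsum_eq]
    exact hcol.summable
  have hall : HasSum (fun p : ℤ × ℤ => F ((p.1 : ℝ) + s, (p.2 : ℝ)))
      (∫ t, ‖f t‖ ^ 2 * Per g s t) := by
    have h1 := hsum.hasSum.prod_fiberwise hrow
    rw [← h1.unique hcol]
    exact hsum.hasSum
  exact (Equiv.ofInjective _ hinj).hasSum_iff.1 hall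

lemma per_lower (g : ℝ → ℂ) (hl : ∀ t, 1 / 8 ≤ |t| → |t| ≤ 3 / 8 → 1 / 8 ≤ ‖g t‖) (t : ℝ) :
    1 / 64 ≤ Per g 0 t + Per g (1 / 4) t := by
  have p0 := per_nonneg g 0 t
  have p1 := per_nonneg g (1 / 4) t
  have key : ∀ u : ℝ, 1 / 8 ≤ |u| → |u| ≤ 3 / 8 → 1 / 64 ≤ ‖g u‖ ^ 2 := by
    intro u h1 h2
    have := hl u h1 h2
    nlinarith
  set a : ℤ := ⌈t - 0 - 1 / 2⌉ with ha
  set b : ℤ := ⌈t - 1 / 4 - 1 / 2⌉ with hb
  have a1 : t - 0 - 1 / 2 ≤ a := Int.le_ceil _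
  have a2 : (a : ℝ) < t - 0 - 1 / 2 + 1 := Int.ceil_lt_add_one _
  have b1 : t - 1 / 4 - 1 / 2 ≤ b := Int.le_ceil _
  have b2 : (b : ℝ) < t - 1 / 4 - 1 / 2 + 1 := Int.ceil_lt_add_one _
  have hab : b = a ∨ b = a - 1 := by
    have h1 : (b : ℝ) < a + 1 := by linarith
    have h2 : (a : ℝ) - 2 < b := by linarith
    have h3 : b < a + 1 := by exact_mod_cast h1
    have h4 : a - 2 < b := by exact_mod_cast h2
    omega
  have e0 : Per g 0 t = ‖g (t - ((a : ℝ) + 0))‖ ^ 2 := rfl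
  have e1 : Per g (1 / 4) t = ‖g (t - ((b : ℝ) + 1 / 4))‖ ^ 2 := rfl
  by_cases hu : 1 / 8 ≤ |t - ((a : ℝ) + 0)| ∧ |t - ((a : ℝ) + 0)| ≤ 3 / 8
  · have := key _ hu.1 hu.2
    linarith
  · have : 1 / 8 ≤ |t - ((b : ℝ) + 1 / 4)| ∧ |t - ((b : ℝ) + 1 / 4)| ≤ 3 / 8 := by
      rw [not_and_or, not_le, not_le, abs_lt, lt_abs] at hu
      rw [le_abs, abs_le]
      rcases hab with h | h
      · have h' : (b : ℝ) = a := by rw [h]
        rcases hu with hu | hu | hu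
        · exact ⟨Or.inr (by linarith [hu.1, hu.2]), by linarith [hu.1, hu.2],
            by linarith [hu.1, hu.2]⟩
        · exact ⟨Or.inl (by linarith), by linarith, by linarith⟩
        · exfalso; linarith
      · have h' : (b : ℝ) = a - 1 := by rw [h]; push_cast; ring
        rcases hu with hu | hu | hu
        · exfalso; linarith [hu.1, hu.2]
        · exfalso; linarith
        · exact ⟨Or.inl (by linarith), by linarith, by linarith⟩
    have := key _ this.1 this.2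
    linarith

theorem gam_frame (g : ℝ → ℂ) (hg : Continuous g) (hb : ∀ t, ‖g t‖ ≤ 1)
    (hs : ∀ t, 1 / 2 ≤ |t| → g t = 0)
    (hl : ∀ t, 1 / 8 ≤ |t| → |t| ≤ 3 / 8 → 1 / 8 ≤ ‖g t‖) :
    ∃ A B : ℝ, 0 < A ∧ 0 < B ∧ ∀ f : ℝ → ℂ, MemLp f 2 volume →
      Summable (fun γ : Gam => ‖∫ t : ℝ, f t * (starRingEnd ℂ)
          (Complex.exp (2 * (Real.pi : ℂ) * Complex.I * (((γ : ℝ × ℝ).2 : ℝ) : ℂ) * (t : ℂ))
            * g (t - (γ : ℝ × ℝ).1))‖ ^ 2) ∧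
      A * (∫ t : ℝ, ‖f t‖ ^ 2) ≤ (∑' γ : Gam, ‖∫ t : ℝ, f t * (starRingEnd ℂ)
          (Complex.exp (2 * (Real.pi : ℂ) * Complex.I * (((γ : ℝ × ℝ).2 : ℝ) : ℂ) * (t : ℂ))
            * g (t - (γ : ℝ × ℝ).1))‖ ^ 2) ∧
      (∑' γ : Gam, ‖∫ t : ℝ, f t * (starRingEnd ℂ)
          (Complex.exp (2 * (Real.pi : ℂ) * Complex.I * (((γ : ℝ × ℝ).2 : ℝ) : ℂ) * (t : ℂ))
            * g (t - (γ : ℝ × ℝ).1))‖ ^ 2) ≤ B * (∫ t : ℝ, ‖f t‖ ^ 2) := by
  refine ⟨1 / 64, 2, by norm_num, by norm_num, fun f hf => ?_⟩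
  have h := (lat_hasSum g hg hb hs f hf 0).add_disjoint lat_disjoint
    (lat_hasSum g hg hb hs f hf (1 / 4))
  have i0 := per_integrable g hg hb f hf 0
  have i1 := per_integrable g hg hb f hf (1 / 4)
  have hi : Integrable (fun t => ‖f t‖ ^ 2) := (memLp_two_iff_integrable_sq_norm hf.1).1 hf
  rw [← integral_add i0 i1] at h
  have ht : (∑' γ : Gam, ‖∫ t : ℝ, f t * (starRingEnd ℂ)
          (Complex.exp (2 * (Real.pi : ℂ) * Complex.I * (((γ : ℝ × ℝ).2 : ℝ) : ℂ) * (t : ℂ))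
            * g (t - (γ : ℝ × ℝ).1))‖ ^ 2) =
      ∫ t, (‖f t‖ ^ 2 * Per g 0 t + ‖f t‖ ^ 2 * Per g (1 / 4) t) := h.tsum_eq
  refine ⟨h.summable, ?_, ?_⟩
  · rw [ht, ← integral_const_mul]
    refine integral_mono (hi.const_mul _) (i0.add i1) fun t => ?_
    have := per_lower g hl t
    have h2 := sq_nonneg ‖f t‖
    simp only
    nlinarith
  · rw [ht, ← integral_const_mul]
    refine integral_mono (i0.add i1) (hi.const_mul _) fun t => ?_
    have h0 := per_le g hb 0 t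
    have h1 := per_le g hb (1 / 4) t
    have h2 := sq_nonneg ‖f t‖
    simp only
    nlinarith

end Pool.Agent.H154Z.Gabor
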