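import Mathlib

set_option autoImplicit false
open MeasureTheory Real FourierTransform

namespace Pool.Agent.H154Z.Gabor

noncomputable def e0 (u : ℝ) : ℂ := ((Real.exp (-π * u ^ 2) : ℝ) : ℂ)
noncomputable def e1 (u : ℝ) : ℂ := ((-2 * π * u * Real.exp (-π * u ^ 2) : ℝ) : ℂ)
noncomputable def e2 (u : ℝ) : ℂ := (((4 * π ^ 2 * u ^ 2 - 2 * π) * Real.exp (-π * u ^ 2) : ℝ) : ℂ)

lemma hd_exp (u : ℝ) : HasDerivAt (fun u : ℝ => Real.exp (-π * u ^ 2))
    (-2 * π * u * Real.exp (-π * u ^ 2)) u := by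
  have h1 : HasDerivAt (fun u : ℝ => -π * u ^ 2) (-π * (2 * u)) u := by
    simpa using (hasDerivAt_pow 2 u).const_mul (-π)
  have := h1.exp
  convert this using 1
  ring

lemma hd_e0 (x t : ℝ) : HasDerivAt (fun t => e0 (t - x)) (e1 (t - x)) t := by
  have h := ((hd_exp (t - x)).ofReal_comp)
  have h2 : HasDerivAt (fun t : ℝ => t - x) 1 t := (hasDerivAt_id t).sub_const x
  have := h.scomp t h2
  simpa [e0, e1, Function.comp_def] using this

lemma hd_e1 (x t : ℝ) : HasDerivAt (fun t => e1 (t - x)) (e2 (t - x)) t := by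
  have h0 : HasDerivAt (fun u : ℝ => -2 * π * u * Real.exp (-π * u ^ 2))
      ((4 * π ^ 2 * (t - x) ^ 2 - 2 * π) * Real.exp (-π * (t - x) ^ 2)) (t - x) := by
    have ha : HasDerivAt (fun u : ℝ => -2 * π * u) (-2 * π) (t - x) := by
      simpa using (hasDerivAt_id (t - x)).const_mul (-2 * π)
    have := ha.fun_mul (hd_exp (t - x))
    refine this.congr_deriv ?_
    ring
  have h := h0.ofReal_comp
  have h2 : HasDerivAt (fun t : ℝ => t - x) 1 t := (hasDerivAt_id t).sub_const x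
  have := h.scomp t h2
  simpa [e1, e2, Function.comp_def] using this

lemma gauss_le (u : ℝ) : Real.exp (-π * u ^ 2) ≤ 1 / (1 + u ^ 2) ^ 2 := by
  have hπ : 3 < π := Real.pi_gt_three
  have hu : 0 ≤ u ^ 2 := sq_nonneg u
  have h1 : 1 + π * u ^ 2 + (π * u ^ 2) ^ 2 / 2 ≤ Real.exp (π * u ^ 2) :=
    Real.quadratic_le_exp_of_nonneg (by positivity)
  have h2 : (1 + u ^ 2) ^ 2 ≤ Real.exp (π * u ^ 2) := by
    have h3 : 2 * u ^ 2 ≤ π * u ^ 2 := by nlinarith
    have h4 : (u ^ 2) ^ 2 ≤ (π * u ^ 2) ^ 2 / 2 := by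
      have : 9 ≤ π ^ 2 := by nlinarith
      have h5 : 0 ≤ (u ^ 2) ^ 2 := sq_nonneg _
      nlinarith
    nlinarith
  rw [neg_mul, Real.exp_neg, one_div]
  exact inv_anti₀ (by positivity) h2

lemma norm_e0_le (u : ℝ) : ‖e0 u‖ ≤ 64 / (1 + u ^ 2) := by
  have h := gauss_le u
  have hp : 0 < 1 + u ^ 2 := by positivity
  rw [e0, Complex.norm_real, Real.norm_eq_abs, abs_of_pos (Real.exp_pos _)]
  refine h.trans ?_
  rw [div_le_div_iff₀ (by positivity) hp]
  nlinarith [sq_nonneg u, sq_nonneg (u ^ 2)]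

lemma norm_e1_le (u : ℝ) : ‖e1 u‖ ≤ 64 / (1 + u ^ 2) := by
  have h := gauss_le u
  have hp : 0 < 1 + u ^ 2 := by positivity
  have hπ : π < 4 := Real.pi_lt_four
  have hπ0 : 0 < π := Real.pi_pos
  rw [e1, Complex.norm_real, Real.norm_eq_abs, abs_mul, abs_of_pos (Real.exp_pos _)]
  have h1 : |-2 * π * u| ≤ 64 * (1 + u ^ 2) := by
    rw [abs_le]
    constructor <;> nlinarith [sq_nonneg (u - 1), sq_nonneg (u + 1), sq_nonneg u]
  calc |-2 * π * u| * Real.exp (-π * u ^ 2) ≤ (64 * (1 + u ^ 2)) * (1 / (1 + u ^ 2) ^ 2) :=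
        mul_le_mul h1 h (Real.exp_pos _).le (by positivity)
    _ = 64 / (1 + u ^ 2) := by field_simp

lemma norm_e2_le (u : ℝ) : ‖e2 u‖ ≤ 64 / (1 + u ^ 2) := by
  have h := gauss_le u
  have hp : 0 < 1 + u ^ 2 := by positivity
  have hπ : π < 4 := Real.pi_lt_four
  have hπ0 : 0 < π := Real.pi_pos
  rw [e2, Complex.norm_real, Real.norm_eq_abs, abs_mul, abs_of_pos (Real.exp_pos _)]
  have h1 : |4 * π ^ 2 * u ^ 2 - 2 * π| ≤ 64 * (1 + u ^ 2) := by
    have h2 : π ^ 2 ≤ 16 := by nlinarith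
    have h3 : π ^ 2 * u ^ 2 ≤ 16 * u ^ 2 := mul_le_mul_of_nonneg_right h2 (sq_nonneg u)
    have h4 : 0 ≤ π ^ 2 * u ^ 2 := by positivity
    rw [abs_le]
    constructor <;> nlinarith [sq_nonneg u]
  calc |4 * π ^ 2 * u ^ 2 - 2 * π| * Real.exp (-π * u ^ 2)
        ≤ (64 * (1 + u ^ 2)) * (1 / (1 + u ^ 2) ^ 2) :=
        mul_le_mul h1 h (Real.exp_pos _).le (by positivity)
    _ = 64 / (1 + u ^ 2) := by field_simp

lemma peetre (x t : ℝ) : 64 / (1 + (t - x) ^ 2) ≤ 128 * (1 + t ^ 2) / (1 + x ^ 2) := by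
  rw [div_le_div_iff₀ (by positivity) (by positivity)]
  nlinarith [sq_nonneg (t - x), sq_nonneg t, sq_nonneg (2 * t - x), sq_nonneg (t * (t - x))]

lemma cont_e0 : Continuous e0 := by unfold e0; fun_prop
lemma cont_e1 : Continuous e1 := by unfold e1; fun_prop
lemma cont_e2 : Continuous e2 := by unfold e2; fun_prop

lemma norm_fourier_le (h : ℝ → ℂ) (w : ℝ) : ‖𝓕 h w‖ ≤ ∫ t, ‖h t‖ := by
  rw [Real.fourier_real_eq_integral_exp_smul]
  refine (norm_integral_le_integral_norm _).trans (le_of_eq ?_)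
  congr 1
  ext t
  rw [norm_smul, Complex.norm_exp_ofReal_mul_I, one_mul]

/-- The short-time Fourier transform of a compactly supported smooth window against the Gaussian
is integrable on the plane. -/
theorem stft_integrable (g : ℝ → ℂ) (hg : ContDiff ℝ 2 g) (hc : HasCompactSupport g) :
    Integrable (fun p : ℝ × ℝ => ∫ t : ℝ, g t
        * Complex.exp (-(Real.pi : ℂ) * (((t - p.1) ^ 2 : ℝ) : ℂ))
        * Complex.exp (-2 * (Real.pi : ℂ) * Complex.I * (p.2 : ℂ) * (t : ℂ)))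
      (volume : Measure (ℝ × ℝ)) := by
  set g1 := deriv g with hg1
  set g2 := deriv g1 with hg2
  have hg' : ContDiff ℝ 1 g1 := by
    have : ContDiff ℝ (1 + 1) g := by simpa [one_add_one_eq_two] using hg
    exact this.deriv'
  have hd0 : ∀ t, HasDerivAt g (g1 t) t := fun t =>
    (hg.differentiable (by norm_num) t).hasDerivAt
  have hd1 : ∀ t, HasDerivAt g1 (g2 t) t := fun t =>
    (hg'.differentiable (by norm_num) t).hasDerivAt
  have c0 : Continuous g := hg.continuous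
  have c1 : Continuous g1 := hg'.continuous
  have c2 : Continuous g2 := hg'.continuous_deriv (le_refl _)
  have s1 : HasCompactSupport g1 := hc.deriv
  have s2 : HasCompactSupport g2 := s1.deriv
  -- the weight
  set W : ℝ → ℝ := fun t => (‖g t‖ + 2 * ‖g1 t‖ + ‖g2 t‖) * (128 * (1 + t ^ 2)) with hW
  have hWc : Continuous W := by rw [hW]; fun_prop
  have hWs : HasCompactSupport W := by
    rw [hW]
    refine HasCompactSupport.mul_right ?_
    exact (hc.norm.add (s1.norm.mul_left (f := fun _ => (2 : ℝ)))).add s2.norm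
  have hWi : Integrable W := hWc.integrable_of_hasCompactSupport hWs
  set K : ℝ := ∫ t, W t with hK
  set h0 : ℝ → ℝ → ℂ := fun x t => g t * e0 (t - x) with hh0
  set h1 : ℝ → ℝ → ℂ := fun x t => g1 t * e0 (t - x) + g t * e1 (t - x) with hh1
  set h2 : ℝ → ℝ → ℂ := fun x t =>
    (g2 t * e0 (t - x) + g1 t * e1 (t - x)) + (g1 t * e1 (t - x) + g t * e2 (t - x)) with hh2
  have D0 : ∀ x t, HasDerivAt (h0 x) (h1 x t) t := fun x t => (hd0 t).mul (hd_e0 x t)
  have D1 : ∀ x t, HasDerivAt (h1 x) (h2 x t) t := fun x t =>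
    ((hd1 t).mul (hd_e0 x t)).add ((hd0 t).mul (hd_e1 x t))
  have ce0 := cont_e0
  have ce1 := cont_e1
  have ce2 := cont_e2
  have I0 : ∀ x, Integrable (h0 x) := fun x =>
    Continuous.integrable_of_hasCompactSupport (by rw [hh0]; fun_prop) hc.mul_right
  have I1 : ∀ x, Integrable (h1 x) := fun x =>
    Continuous.integrable_of_hasCompactSupport (by rw [hh1]; fun_prop)
      (s1.mul_right.add hc.mul_right)
  have I2 : ∀ x, Integrable (h2 x) := fun x =>
    Continuous.integrable_of_hasCompactSupport (by rw [hh2]; fun_prop)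
      ((s2.mul_right.add s1.mul_right).add (s1.mul_right.add hc.mul_right))
  have B0 : ∀ x t, ‖h0 x t‖ ≤ W t / (1 + x ^ 2) := by
    intro x t
    have a0 := (norm_e0_le (t - x)).trans (peetre x t)
    have n0 := norm_nonneg (g t)
    have n1 := norm_nonneg (g1 t)
    have n2 := norm_nonneg (g2 t)
    have hq : 0 ≤ 128 * (1 + t ^ 2) / (1 + x ^ 2) := by positivity
    simp only [hh0, hW, norm_mul, mul_div_assoc (‖g t‖ + 2 * ‖g1 t‖ + ‖g2 t‖)]
    nlinarith [mul_le_mul_of_nonneg_left a0 n0, mul_nonneg n1 hq, mul_nonneg n2 hq]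
  have B2 : ∀ x t, ‖h2 x t‖ ≤ W t / (1 + x ^ 2) := by
    intro x t
    have a0 := (norm_e0_le (t - x)).trans (peetre x t)
    have a1 := (norm_e1_le (t - x)).trans (peetre x t)
    have a2 := (norm_e2_le (t - x)).trans (peetre x t)
    have n0 := norm_nonneg (g t)
    have n1 := norm_nonneg (g1 t)
    have n2 := norm_nonneg (g2 t)
    have e : ‖h2 x t‖ ≤ (‖g2 t‖ * ‖e0 (t - x)‖ + ‖g1 t‖ * ‖e1 (t - x)‖) +
        (‖g1 t‖ * ‖e1 (t - x)‖ + ‖g t‖ * ‖e2 (t - x)‖) := by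
      simp only [hh2]
      refine (norm_add_le _ _).trans (add_le_add ?_ ?_)
      · refine (norm_add_le _ _).trans ?_
        rw [norm_mul, norm_mul]
      · refine (norm_add_le _ _).trans ?_
        rw [norm_mul, norm_mul]
    simp only [hW, mul_div_assoc (‖g t‖ + 2 * ‖g1 t‖ + ‖g2 t‖)]
    nlinarith [mul_le_mul_of_nonneg_left a0 n2, mul_le_mul_of_nonneg_left a1 n1,
      mul_le_mul_of_nonneg_left a2 n0]
  have N0 : ∀ x w, ‖𝓕 (h0 x) w‖ ≤ K / (1 + x ^ 2) := by
    intro x w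
    refine (norm_fourier_le _ _).trans ?_
    rw [hK, ← integral_div]
    exact integral_mono (I0 x).norm (hWi.div_const _) (B0 x)
  have N2 : ∀ x w, ‖𝓕 (h2 x) w‖ ≤ K / (1 + x ^ 2) := by
    intro x w
    refine (norm_fourier_le _ _).trans ?_
    rw [hK, ← integral_div]
    exact integral_mono (I2 x).norm (hWi.div_const _) (B2 x)
  have F2 : ∀ x w : ℝ, 𝓕 (h2 x) w =
      (2 * π * Complex.I * w) * ((2 * π * Complex.I * w) * 𝓕 (h0 x) w) := by
    intro x w
    have d0 : deriv (h0 x) = h1 x := funext fun t => (D0 x t).deriv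
    have d1 : deriv (h1 x) = h2 x := funext fun t => (D1 x t).deriv
    have f1 := Real.fourier_deriv (I0 x) (fun t => (D0 x t).differentiableAt) (d0 ▸ I1 x)
    have f2 := Real.fourier_deriv (I1 x) (fun t => (D1 x t).differentiableAt) (d1 ▸ I2 x)
    rw [d0] at f1
    rw [d1] at f2
    rw [f2, f1]
    simp only [smul_eq_mul]
  have N : ∀ x w : ℝ, ‖𝓕 (h0 x) w‖ ≤ 2 * K * ((1 + x ^ 2)⁻¹ * (1 + w ^ 2)⁻¹) := by
    intro x w
    have a := N0 x w
    have b := N2 x w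
    have hn : ‖(2 * π * Complex.I * w : ℂ)‖ = 2 * π * |w| := by
      simp [abs_of_pos Real.pi_pos]
    rw [F2, norm_mul, hn, norm_mul, hn] at b
    have hπ : 3 < π := Real.pi_gt_three
    have n := norm_nonneg (𝓕 (h0 x) w)
    have hw : w ^ 2 * ‖𝓕 (h0 x) w‖ ≤ K / (1 + x ^ 2) := by
      refine le_trans ?_ b
      have h5 : w ^ 2 = |w| * |w| := by rw [← sq, sq_abs]
      have h6 : 0 ≤ |w| * |w| * ‖𝓕 (h0 x) w‖ := by positivity
      have h7 : 1 ≤ 2 * π * (2 * π) := by nlinarith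
      rw [h5]
      nlinarith
    have hp : 0 < 1 + w ^ 2 := by positivity
    have : ‖𝓕 (h0 x) w‖ * (1 + w ^ 2) ≤ 2 * K * (1 + x ^ 2)⁻¹ := by
      rw [div_eq_mul_inv] at a hw
      nlinarith
    rw [← mul_assoc, ← div_eq_mul_inv, le_div_iff₀ hp]
    exact this
  have E : (fun p : ℝ × ℝ => ∫ t : ℝ, g t
        * Complex.exp (-(Real.pi : ℂ) * (((t - p.1) ^ 2 : ℝ) : ℂ))
        * Complex.exp (-2 * (Real.pi : ℂ) * Complex.I * (p.2 : ℂ) * (t : ℂ))) =
      fun p : ℝ × ℝ => 𝓕 (h0 p.1) p.2 := by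
    ext p
    rw [Real.fourier_real_eq_integral_exp_smul]
    congr 1
    ext t
    simp only [hh0, e0, smul_eq_mul, Complex.ofReal_exp]
    push_cast
    ring_nf
  have hmeas : AEStronglyMeasurable (fun p : ℝ × ℝ => ∫ t : ℝ, g t
        * Complex.exp (-(Real.pi : ℂ) * (((t - p.1) ^ 2 : ℝ) : ℂ))
        * Complex.exp (-2 * (Real.pi : ℂ) * Complex.I * (p.2 : ℂ) * (t : ℂ)))
      (volume : Measure (ℝ × ℝ)) := by
    have hcont : Continuous (fun q : (ℝ × ℝ) × ℝ => g q.2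
        * Complex.exp (-(Real.pi : ℂ) * (((q.2 - q.1.1) ^ 2 : ℝ) : ℂ))
        * Complex.exp (-2 * (Real.pi : ℂ) * Complex.I * (q.1.2 : ℂ) * (q.2 : ℂ))) := by
      fun_prop
    exact (hcont.stronglyMeasurable.integral_prod_right' (ν := volume)).aestronglyMeasurable
  have hint : Integrable (fun p : ℝ × ℝ => 2 * K * ((1 + p.1 ^ 2)⁻¹ * (1 + p.2 ^ 2)⁻¹))
      (volume : Measure (ℝ × ℝ)) :=
    (integrable_inv_one_add_sq.mul_prod integrable_inv_one_add_sq).const_mul _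
  refine hint.mono' hmeas (Filter.Eventually.of_forall fun p => ?_)
  have := congrFun E p
  exact this.symm ▸ N p.1 p.2

end Pool.Agent.H154Z.Gabor
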