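import Mathlib

set_option autoImplicit false

namespace Pool.Agent.H154Z.QReal

open Filter Topology

/-- The variable `q` as a Laurent series. -/
noncomputable def qv : LaurentSeries ℚ := HahnSeries.single 1 1

/-- The `q`-integer `[n]_q = (1 - q ^ n) / (1 - q)`. -/
noncomputable def qInt (n : ℕ) : LaurentSeries ℚ := (1 - qv ^ n) / (1 - qv)

/-- The real truncation `[[c 0, ..., c N]] = c 0 - 1 / (c 1 - 1 / (... - 1 / c N))`. -/
noncomputable def realTrunc : ℕ → (ℕ → ℕ) → ℝ
  | 0, c => c 0
  | N + 1, c => c 0 - 1 / realTrunc N (fun j => c (j + 1))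

/-- The deformed truncation
`[[c 0, ..., c N]]_q = [c 0]_q - q ^ (c 0 - 1) / ([c 1]_q - q ^ (c 1 - 1) / (... / [c N]_q))`,
computed in the field of Laurent series. -/
noncomputable def qTrunc : ℕ → (ℕ → ℕ) → LaurentSeries ℚ
  | 0, c => qInt (c 0)
  | N + 1, c => qInt (c 0) - qv ^ (c 0 - 1) / qTrunc N (fun j => c (j + 1))

/-- `c` is a negative continued fraction expansion of `x`: all digits are at least `2` and the
truncations tend to `x`. -/
def IsExpansion (x : ℝ) (c : ℕ → ℕ) : Prop :=
  (∀ j, 2 ≤ c j) ∧ Tendsto (fun N => realTrunc N c) atTop (𝓝 x)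

/-- The deformed truncations of `c` converge `q`-adically to `F`: for every `K`, from some `N` on
all coefficients of index below `K` agree with those of `F`. -/
def QAdicLimit (c : ℕ → ℕ) (F : LaurentSeries ℚ) : Prop :=
  ∀ K : ℤ, ∀ᶠ N in atTop, ∀ k < K, (qTrunc N c).coeff k = F.coeff k

/-- `Q` is the family of `q`-deformed real numbers: for `x ≥ 1` the series `Q x` is the `q`-adic
limit of the deformed truncations of a negative continued fraction expansion of `x`, and the rule
`[x - 1]_q = q⁻¹ ([x]_q - 1)` holds for all real `x`. -/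
def IsQReal (Q : ℝ → LaurentSeries ℚ) : Prop :=
  (∀ x : ℝ, 1 ≤ x → ∃ c : ℕ → ℕ, IsExpansion x c ∧ QAdicLimit c (Q x)) ∧
    ∀ x : ℝ, Q (x - 1) = qv⁻¹ * (Q x - 1)

/-- The radius of convergence of a Laurent series: that of the complex power series formed by its
coefficients of index `k ≥ 0`. -/
noncomputable def radius (F : LaurentSeries ℚ) : ENNReal :=
  (FormalMultilinearSeries.ofScalars ℂ (fun k : ℕ => ((F.coeff (k : ℤ) : ℚ) : ℂ))).radius

end Pool.Agent.H154Z.QReal
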