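import Pool.Agent.H154Z.QRealProof

set_option autoImplicit false

namespace Pool.Agent.H154Z.QReal

open Filter Topology PowerSeries

/-- one step of the algorithm -/
noncomputable def nxt (x : ℝ) : ℝ := 1 / ((⌊x⌋₊ : ℝ) + 1 - x)

/-- the digits -/
noncomputable def dig (x : ℝ) (j : ℕ) : ℕ := ⌊nxt^[j] x⌋₊ + 1

theorem gap_pos (x : ℝ) : 0 < (⌊x⌋₊ : ℝ) + 1 - x := by
  have := Nat.lt_floor_add_one x
  linarith

theorem gap_le {x : ℝ} (hx : 1 ≤ x) : (⌊x⌋₊ : ℝ) + 1 - x ≤ 1 := by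
  have := Nat.floor_le (by linarith : (0 : ℝ) ≤ x)
  linarith

theorem one_le_nxt {x : ℝ} (hx : 1 ≤ x) : 1 ≤ nxt x := by
  unfold nxt
  rw [le_div_iff₀ (gap_pos x), one_mul]
  exact gap_le hx

theorem one_le_iter {x : ℝ} (hx : 1 ≤ x) (j : ℕ) : 1 ≤ nxt^[j] x := by
  induction j with
  | zero => exact hx
  | succ j ih => rw [Function.iterate_succ_apply']; exact one_le_nxt ih

theorem two_le_dig {x : ℝ} (hx : 1 ≤ x) (j : ℕ) : 2 ≤ dig x j := by
  unfold dig
  have := (Nat.one_le_floor_iff _).2 (one_le_iter hx j)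
  omega

theorem dig_tail (x : ℝ) : (fun j => dig x (j + 1)) = dig (nxt x) := by
  funext j
  unfold dig
  rw [Function.iterate_succ_apply]

theorem trunc_est (N : ℕ) : ∀ x : ℝ, 1 ≤ x →
    0 ≤ realTrunc N (dig x) - x ∧ realTrunc N (dig x) - x ≤ 1 / ((N : ℝ) + 1) := by
  induction N with
  | zero =>
    intro x hx
    have h1 := gap_pos x
    have h2 := gap_le hx
    simp only [realTrunc, dig, Function.iterate_zero, id_eq]
    push_cast
    constructor
    · linarith
    · norm_num; linarith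
  | succ N ih =>
    intro x hx
    have hy := one_le_nxt hx
    obtain ⟨h1, h2⟩ := ih (nxt x) hy
    rw [realTrunc, dig_tail]
    set t := realTrunc N (dig (nxt x)) with ht
    set y := nxt x with hyd
    have h3 : ((dig x 0 : ℕ) : ℝ) - x = 1 / y := by
      rw [hyd, nxt, one_div_one_div]
      simp [dig]
    have h4 : ((dig x 0 : ℕ) : ℝ) - 1 / t - x = 1 / y - 1 / t := by linarith
    rw [h4]
    have hy0 : 0 < y := by linarith
    have ht0 : 0 < t := by linarith
    have hN : (0 : ℝ) < (N : ℝ) + 1 := by positivity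
    constructor
    · rw [sub_nonneg]
      exact one_div_le_one_div_of_le hy0 (by linarith)
    · rw [le_div_iff₀ hN] at h2
      have h5 : 1 / y - 1 / t = (t - y) / (y * t) := by field_simp
      rw [h5, div_le_div_iff₀ (by positivity) (by positivity)]
      push_cast
      have h6 : t ≤ y * t := by nlinarith
      nlinarith

theorem isExpansion_dig {x : ℝ} (hx : 1 ≤ x) : IsExpansion x (dig x) := by
  refine ⟨two_le_dig hx, ?_⟩
  have h1 : Tendsto (fun N : ℕ => x + 1 / ((N : ℝ) + 1)) atTop (𝓝 (x + 0)) :=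
    tendsto_const_nhds.add tendsto_one_div_add_atTop_nhds_zero_nat
  rw [add_zero] at h1
  refine tendsto_of_tendsto_of_tendsto_of_le_of_le tendsto_const_nhds h1 (fun N => ?_) (fun N => ?_)
  · have := (trunc_est N x hx).1
    simp only
    linarith
  · have := (trunc_est N x hx).2
    simp only
    linarith

theorem nxt_add_one {x : ℝ} (hx : 1 ≤ x) : nxt (x + 1) = nxt x := by
  unfold nxt
  rw [Nat.floor_add_one (by linarith)]
  push_cast
  congr 1
  ring

theorem dig_add_one {x : ℝ} (hx : 1 ≤ x) : dig (x + 1) 0 = dig x 0 + 1 := by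
  simp only [dig, Function.iterate_zero, id_eq]
  rw [Nat.floor_add_one (by linarith)]

theorem pTrunc_add_one {x : ℝ} (hx : 1 ≤ x) (N : ℕ) :
    pTrunc N (dig (x + 1)) = 1 + X * pTrunc N (dig x) := by
  cases N with
  | zero => rw [pTrunc, pTrunc, dig_add_one hx, pInt_succ]
  | succ N =>
    obtain ⟨m, hm⟩ : ∃ m, dig x 0 = m + 1 := ⟨dig x 0 - 1, by have := two_le_dig hx 0; omega⟩
    rw [pTrunc, pTrunc, dig_tail, dig_tail, nxt_add_one hx, dig_add_one hx, pInt_succ, hm]
    simp only [Nat.add_sub_cancel]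
    ring

theorem pLim_add_one {x : ℝ} (hx : 1 ≤ x) : pLim (dig (x + 1)) = 1 + X * pLim (dig x) := by
  ext k
  rw [← coeff_pLim (two_le_dig (by linarith)) (le_refl k), pTrunc_add_one hx, map_add, map_add]
  congr 1
  cases k with
  | zero => simp
  | succ k =>
    rw [coeff_succ_X_mul, coeff_succ_X_mul, coeff_pLim (two_le_dig hx) (Nat.le_succ k)]

/-- the family -/
noncomputable def QQ (x : ℝ) : LaurentSeries ℚ :=
  qv ^ (⌊x⌋ - 1) * emb (pLim (dig (Int.fract x + 1))) + (1 - qv ^ (⌊x⌋ - 1)) / (1 - qv)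

theorem QQ_shift (x : ℝ) : QQ (x - 1) = qv⁻¹ * (QQ x - 1) := by
  unfold QQ
  rw [Int.floor_sub_one, Int.fract_sub_one, zpow_sub_one₀ qv_ne (⌊x⌋ - 1)]
  have h1 := qv_ne
  have h2 := one_sub_qv_ne
  field_simp
  ring

theorem QQ_eq (n : ℕ) : ∀ x : ℝ, ⌊x⌋ = (n : ℤ) + 1 → QQ x = emb (pLim (dig x)) := by
  induction n with
  | zero =>
    intro x hx
    have h1 : Int.fract x + 1 = x := by
      have := Int.fract_add_floor x
      rw [hx] at this
      simpa using this
    unfold QQ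
    rw [hx, h1]
    simp
  | succ n ih =>
    intro x hx
    have h1 : ⌊x - 1⌋ = (n : ℤ) + 1 := by
      rw [Int.floor_sub_one, hx]
      push_cast
      ring
    have h2 : 1 ≤ x - 1 := by
      have h3 := Int.floor_le (x - 1)
      rw [h1] at h3
      push_cast at h3
      have : (0 : ℝ) ≤ n := Nat.cast_nonneg n
      linarith
    have h3 := pLim_add_one h2
    rw [sub_add_cancel] at h3
    have h4 := QQ_shift x
    rw [ih _ h1] at h4
    rw [h3, map_add, map_mul, map_one, emb_X, h4, ← mul_assoc, mul_inv_cancel₀ qv_ne]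
    ring

theorem isQReal_QQ : IsQReal QQ := by
  refine ⟨fun x hx => ⟨dig x, isExpansion_dig hx, ?_⟩, QQ_shift⟩
  have h1 : 1 ≤ ⌊x⌋ := by
    rw [Int.le_floor]
    simpa using hx
  have h2 : ⌊x⌋ = ((⌊x⌋ - 1).toNat : ℤ) + 1 := by omega
  rw [QQ_eq _ x h2]
  exact qAdicLimit_pLim (two_le_dig hx)

theorem main : (∃ Q : ℝ → LaurentSeries ℚ, IsQReal Q) ∧
    ∀ Q : ℝ → LaurentSeries ℚ, IsQReal Q → ∀ x : ℝ,
      ENNReal.ofReal ((3 - √5) / 2) ≤ radius (Q x) ∧
      Summable fun k : ℕ => |(((Q x).coeff (k : ℤ) : ℚ) : ℝ)| * ((3 - √5) / 2) ^ k :=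
  ⟨⟨QQ, isQReal_QQ⟩, fun _ hQ x => ⟨radius_ge (conv_all hQ x), conv_all hQ x⟩⟩

end Pool.Agent.H154Z.QReal
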