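import Pool.Agent.H154Z.QRealDefs

set_option autoImplicit false

namespace Pool.Agent.H154Z.QReal

open Filter Topology PowerSeries

/-- truncated weighted norm -/
noncomputable def nm (r : ℝ) (K : ℕ) (F : ℚ⟦X⟧) : ℝ :=
  ∑ k ∈ Finset.range K, |((coeff k F : ℚ) : ℝ)| * r ^ k

theorem nm_nonneg {r : ℝ} (hr : 0 ≤ r) (K : ℕ) (F : ℚ⟦X⟧) : 0 ≤ nm r K F :=
  Finset.sum_nonneg fun _ _ => by positivity

theorem nm_add {r : ℝ} (hr : 0 ≤ r) (K : ℕ) (F G : ℚ⟦X⟧) :
    nm r K (F + G) ≤ nm r K F + nm r K G := by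
  unfold nm
  rw [← Finset.sum_add_distrib]
  refine Finset.sum_le_sum fun k _ => ?_
  rw [← add_mul, map_add]
  push_cast
  exact mul_le_mul_of_nonneg_right (abs_add_le _ _) (by positivity)

theorem nm_neg (r : ℝ) (K : ℕ) (F : ℚ⟦X⟧) : nm r K (-F) = nm r K F := by
  unfold nm
  refine Finset.sum_congr rfl fun k _ => ?_
  rw [map_neg]
  push_cast
  rw [abs_neg]

theorem nm_zero (r : ℝ) (K : ℕ) : nm r K 0 = 0 := by
  unfold nm
  simp

theorem nm_one (r : ℝ) (K : ℕ) : nm r K 1 ≤ 1 := by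
  unfold nm
  have h : ∀ k ∈ Finset.range K, |((coeff k (1 : ℚ⟦X⟧) : ℚ) : ℝ)| * r ^ k
      = if k = 0 then 1 else 0 := by
    intro k _
    rw [coeff_one]
    split_ifs with h
    · subst h; simp
    · simp
  rw [Finset.sum_congr rfl h, Finset.sum_ite_eq']
  split_ifs <;> norm_num

theorem nm_X {r : ℝ} (hr : 0 ≤ r) (K : ℕ) : nm r K X ≤ r := by
  unfold nm
  have h : ∀ k ∈ Finset.range K, |((coeff k (X : ℚ⟦X⟧) : ℚ) : ℝ)| * r ^ k
      = if k = 1 then r else 0 := by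
    intro k _
    rw [coeff_X]
    split_ifs with h
    · subst h; simp
    · simp
  rw [Finset.sum_congr rfl h, Finset.sum_ite_eq']
  split_ifs
  · exact le_rfl
  · exact hr

theorem nm_mul {r : ℝ} (hr : 0 ≤ r) (K : ℕ) (F G : ℚ⟦X⟧) :
    nm r K (F * G) ≤ nm r K F * nm r K G := by
  classical
  unfold nm
  set f : ℕ × ℕ → ℝ := fun p =>
    (|((coeff p.1 F : ℚ) : ℝ)| * r ^ p.1) * (|((coeff p.2 G : ℚ) : ℝ)| * r ^ p.2) with hf
  have h1 : ∀ k ∈ Finset.range K, |((coeff k (F * G) : ℚ) : ℝ)| * r ^ k ≤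
      ∑ p ∈ Finset.HasAntidiagonal.antidiagonal k, f p := by
    intro k _
    rw [coeff_mul]
    push_cast
    refine (mul_le_mul_of_nonneg_right (Finset.abs_sum_le_sum_abs _ _) (by positivity)).trans ?_
    rw [Finset.sum_mul]
    refine Finset.sum_le_sum fun p hp => le_of_eq ?_
    rw [Finset.HasAntidiagonal.mem_antidiagonal] at hp
    rw [hf, ← hp, pow_add, abs_mul]
    ring
  refine (Finset.sum_le_sum h1).trans ?_
  rw [Finset.sum_mul_sum, ← Finset.sum_product', ← Finset.sum_biUnion]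
  · refine Finset.sum_le_sum_of_subset_of_nonneg ?_ fun p _ _ => by positivity
    intro p hp
    simp only [Finset.mem_biUnion, Finset.mem_range, Finset.HasAntidiagonal.mem_antidiagonal] at hp
    obtain ⟨k, hk, hp⟩ := hp
    simp only [Finset.mem_product, Finset.mem_range]
    omega
  · intro a _ b _ hab
    rw [Function.onFun, Finset.disjoint_left]
    intro p hpa hpb
    rw [Finset.HasAntidiagonal.mem_antidiagonal] at hpa hpb
    exact hab (hpa.symm.trans hpb)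

/-- the golden ratio -/
noncomputable def ph : ℝ := (1 + √5) / 2

/-- the radius -/
noncomputable def rr : ℝ := (3 - √5) / 2

theorem s5 : √5 * √5 = (5 : ℝ) := Real.mul_self_sqrt (by norm_num)

theorem s5_lt : √5 < (3 : ℝ) := by
  nlinarith [s5, Real.sqrt_nonneg 5]

theorem s5_gt : (2 : ℝ) < √5 := by
  nlinarith [s5, Real.sqrt_nonneg 5]

theorem rr_pos : 0 < rr := by unfold rr; linarith [s5_lt]

theorem rr_ph : rr * ph = ph - 1 := by unfold rr ph; nlinarith [s5]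

theorem rr_eq : rr = 2 - ph := by unfold rr ph; ring

theorem ph_gt : 1 < ph := by unfold ph; linarith [s5_gt]

/-- the invariant ball -/
def Good (W : ℚ⟦X⟧) : Prop := ∀ K, nm rr K W ≤ ph

theorem nm_XW {W : ℚ⟦X⟧} (h : Good W) (K : ℕ) : nm rr K (X * W) ≤ ph - 1 := by
  refine (nm_mul rr_pos.le K _ _).trans ?_
  rw [← rr_ph]
  exact mul_le_mul (nm_X rr_pos.le K) (h K) (nm_nonneg rr_pos.le _ _) rr_pos.le

theorem good_L {W : ℚ⟦X⟧} (h : Good W) : Good (1 + X * W) := by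
  intro K
  have h1 := nm_add rr_pos.le K 1 (X * W)
  have h2 := nm_one rr K
  have h3 := nm_XW h K
  linarith

theorem const_L (W : ℚ⟦X⟧) : constantCoeff (1 + X * W) ≠ 0 := by simp

theorem good_R {W : ℚ⟦X⟧} (h : Good W) : Good (1 - (1 + X * W)⁻¹) := by
  intro K
  set v : ℚ⟦X⟧ := 1 - (1 + X * W)⁻¹ with hv
  have h0 : (1 + X * W)⁻¹ * (1 + X * W) = 1 := PowerSeries.inv_mul_cancel _ (const_L W)
  have h1 : v = X * W * (1 + -v) := by
    rw [hv]
    linear_combination (-1 : ℚ⟦X⟧) * h0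
  have h2 : nm rr K v ≤ (ph - 1) * (1 + nm rr K v) := by
    conv_lhs => rw [h1]
    refine (nm_mul rr_pos.le K _ _).trans ?_
    refine mul_le_mul (nm_XW h K) ?_ (nm_nonneg rr_pos.le _ _) (by linarith [ph_gt])
    refine (nm_add rr_pos.le K _ _).trans ?_
    rw [nm_neg]
    linarith [nm_one rr K]
  have h3 : rr * nm rr K v ≤ rr * ph := by
    rw [rr_ph]
    nth_rewrite 1 [rr_eq]
    linarith
  exact le_of_mul_le_mul_left h3 rr_pos

/-- power series version of the `q`-integers -/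
noncomputable def pInt (n : ℕ) : ℚ⟦X⟧ := ∑ i ∈ Finset.range n, X ^ i

theorem pInt_succ (n : ℕ) : pInt (n + 1) = 1 + X * pInt n := by
  unfold pInt
  rw [Finset.sum_range_succ', Finset.mul_sum, pow_zero, add_comm]
  congr 1
  exact Finset.sum_congr rfl fun i _ => by ring

theorem pInt_succ' (n : ℕ) : pInt (n + 1) = pInt n + X ^ n := by
  unfold pInt
  rw [Finset.sum_range_succ]

theorem good_Lp {v : ℚ⟦X⟧} (h : Good v) (n : ℕ) : Good (X ^ n * v + pInt n) := by
  induction n with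
  | zero => simpa [pInt] using h
  | succ n ih =>
    have : X ^ (n + 1) * v + pInt (n + 1) = 1 + X * (X ^ n * v + pInt n) := by
      rw [pInt_succ]; ring
    rw [this]
    exact good_L ih

/-- power series version of the truncations -/
noncomputable def pTrunc : ℕ → (ℕ → ℕ) → ℚ⟦X⟧
  | 0, c => pInt (c 0)
  | N + 1, c => pInt (c 0) - X ^ (c 0 - 1) * (pTrunc N (fun j => c (j + 1)))⁻¹

theorem good_zero : Good 0 := fun K => by rw [nm_zero]; linarith [ph_gt]

theorem pTrunc_form (N : ℕ) : ∀ c : ℕ → ℕ, (∀ j, 2 ≤ c j) →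
    ∃ W, pTrunc N c = 1 + X * W ∧ Good W := by
  induction N with
  | zero =>
    intro c hc
    obtain ⟨m, hm⟩ : ∃ m, c 0 = m + 1 := ⟨c 0 - 1, by have := hc 0; omega⟩
    refine ⟨X ^ m * 0 + pInt m, ?_, good_Lp good_zero m⟩
    rw [pTrunc, hm, pInt_succ]
    ring
  | succ N ih =>
    intro c hc
    obtain ⟨W, hW, hg⟩ := ih (fun j => c (j + 1)) (fun j => hc _)
    obtain ⟨m, hm⟩ : ∃ m, c 0 = m + 2 := ⟨c 0 - 2, by have := hc 0; omega⟩
    refine ⟨X ^ m * (1 - (1 + X * W)⁻¹) + pInt m, ?_, good_Lp (good_R hg) m⟩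
    rw [pTrunc, hW, hm, show m + 2 - 1 = m + 1 by omega, show m + 2 = m + 1 + 1 by omega,
      pInt_succ', pInt_succ]
    ring

theorem pTrunc_const {N : ℕ} {c : ℕ → ℕ} (hc : ∀ j, 2 ≤ c j) :
    constantCoeff (pTrunc N c) ≠ 0 := by
  obtain ⟨W, hW, _⟩ := pTrunc_form N c hc
  rw [hW]
  exact const_L W

theorem pTrunc_good {N : ℕ} {c : ℕ → ℕ} (hc : ∀ j, 2 ≤ c j) : Good (pTrunc N c) := by
  obtain ⟨W, hW, hg⟩ := pTrunc_form N c hc
  rw [hW]
  exact good_L hg

/-- the embedding -/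
noncomputable abbrev emb : ℚ⟦X⟧ →+* LaurentSeries ℚ := HahnSeries.ofPowerSeries ℤ ℚ

theorem emb_X : emb X = qv := HahnSeries.ofPowerSeries_X

theorem emb_ne {F : ℚ⟦X⟧} (h : F ≠ 0) : emb F ≠ 0 := by
  intro h0
  apply h
  apply HahnSeries.ofPowerSeries_injective (Γ := ℤ)
  rw [map_zero]
  exact h0

theorem qv_ne : qv ≠ 0 := by
  rw [← emb_X]
  exact emb_ne X_ne_zero

theorem one_sub_qv_ne : 1 - qv ≠ 0 := by
  have : (1 : ℚ⟦X⟧) - X ≠ 0 := by
    intro h
    have := congrArg constantCoeff h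
    simp at this
  have h2 := emb_ne this
  rwa [map_sub, map_one, emb_X] at h2

theorem emb_pInt (n : ℕ) : emb (pInt n) = qInt n := by
  unfold qInt
  rw [eq_div_iff one_sub_qv_ne]
  induction n with
  | zero => simp [pInt]
  | succ n ih =>
    rw [pInt_succ', map_add, map_pow, emb_X, add_mul, ih]
    ring

theorem emb_inv {F : ℚ⟦X⟧} (h : constantCoeff F ≠ 0) : emb F⁻¹ = (emb F)⁻¹ := by
  have h0 : F⁻¹ * F = 1 := PowerSeries.inv_mul_cancel _ h
  have h1 : emb F⁻¹ * emb F = 1 := by rw [← map_mul, h0, map_one]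
  exact eq_inv_of_mul_eq_one_left h1

theorem emb_pTrunc (N : ℕ) : ∀ c : ℕ → ℕ, (∀ j, 2 ≤ c j) → emb (pTrunc N c) = qTrunc N c := by
  induction N with
  | zero => intro c _; rw [pTrunc, qTrunc, emb_pInt]
  | succ N ih =>
    intro c hc
    rw [pTrunc, qTrunc, map_sub, map_mul, map_pow, emb_X, emb_pInt,
      emb_inv (pTrunc_const fun j => hc _), ih _ (fun j => hc _), div_eq_mul_inv]

theorem pTrunc_dvd (N : ℕ) : ∀ (c : ℕ → ℕ) (M : ℕ), (∀ j, 2 ≤ c j) → N ≤ M →
    X ^ (N + 1) ∣ pTrunc M c - pTrunc N c := by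
  induction N with
  | zero =>
    intro c M hc _
    obtain ⟨W, hW, _⟩ := pTrunc_form M c hc
    obtain ⟨W', hW', _⟩ := pTrunc_form 0 c hc
    rw [hW, hW']
    exact ⟨W - W', by ring⟩
  | succ N ih =>
    intro c M hc hM
    obtain ⟨M, rfl⟩ : ∃ M', M = M' + 1 := ⟨M - 1, by omega⟩
    obtain ⟨D, hD⟩ := ih (fun j => c (j + 1)) M (fun j => hc _) (by omega)
    obtain ⟨m, hm⟩ : ∃ m, c 0 = m + 2 := ⟨c 0 - 2, by have := hc 0; omega⟩
    set a := pTrunc M (fun j => c (j + 1)) with ha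
    set b := pTrunc N (fun j => c (j + 1)) with hb
    have h1 : a⁻¹ * a = 1 := PowerSeries.inv_mul_cancel _ (pTrunc_const fun j => hc _)
    have h2 : b⁻¹ * b = 1 := PowerSeries.inv_mul_cancel _ (pTrunc_const fun j => hc _)
    refine ⟨X ^ m * a⁻¹ * b⁻¹ * D, ?_⟩
    rw [pTrunc, pTrunc, ← ha, ← hb, hm, show m + 2 - 1 = m + 1 by omega]
    linear_combination (X ^ (m + 1) * a⁻¹ * b⁻¹) * hD - (X ^ (m + 1) * b⁻¹) * h1
      + (X ^ (m + 1) * a⁻¹) * h2

/-- the limit series -/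
noncomputable def pLim (c : ℕ → ℕ) : ℚ⟦X⟧ := mk fun k => coeff k (pTrunc k c)

theorem coeff_pLim {c : ℕ → ℕ} (hc : ∀ j, 2 ≤ c j) {k N : ℕ} (h : k ≤ N) :
    coeff k (pTrunc N c) = coeff k (pLim c) := by
  have h1 := pTrunc_dvd k c N hc h
  rw [X_pow_dvd_iff] at h1
  have h2 := h1 k (Nat.lt_succ_self k)
  rw [map_sub, sub_eq_zero] at h2
  rw [h2, pLim, coeff_mk]

theorem emb_coeff_congr {F G : ℚ⟦X⟧} {k : ℤ} (h : ∀ n : ℕ, (n : ℤ) = k → coeff n F = coeff n G) :
    (emb F).coeff k = (emb G).coeff k := by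
  rcases k with n | n
  · have := h n rfl
    rw [Int.ofNat_eq_natCast, HahnSeries.ofPowerSeries_apply_coeff,
      HahnSeries.ofPowerSeries_apply_coeff, this]
  · have h1 : ∀ H : ℚ⟦X⟧, (emb H).coeff (Int.negSucc n) = 0 := by
      intro H
      have := PowerSeries.coeff_coe H (Int.negSucc n)
      rw [if_pos (Int.negSucc_lt_zero n)] at this
      exact this
    rw [h1, h1]

theorem qAdicLimit_pLim {c : ℕ → ℕ} (hc : ∀ j, 2 ≤ c j) : QAdicLimit c (emb (pLim c)) := by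
  intro K
  filter_upwards [eventually_ge_atTop K.toNat] with N hN k hk
  rw [← emb_pTrunc N c hc]
  refine emb_coeff_congr fun n hn => coeff_pLim hc ?_
  omega

/-- absolute convergence on the circle -/
def Conv (F : LaurentSeries ℚ) : Prop :=
  Summable fun k : ℕ => |((F.coeff (k : ℤ) : ℚ) : ℝ)| * rr ^ k

theorem sum_le_of_limit {c : ℕ → ℕ} (hc : ∀ j, 2 ≤ c j) {F : LaurentSeries ℚ}
    (h : QAdicLimit c F) (K : ℕ) :
    ∑ k ∈ Finset.range K, |((F.coeff (k : ℤ) : ℚ) : ℝ)| * rr ^ k ≤ ph := by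
  obtain ⟨N, hN⟩ := (h K).exists
  refine le_trans (le_of_eq ?_) (pTrunc_good (N := N) hc K)
  unfold nm
  refine Finset.sum_congr rfl fun k hk => ?_
  rw [← hN k (by exact_mod_cast Finset.mem_range.1 hk), ← emb_pTrunc N c hc,
    HahnSeries.ofPowerSeries_apply_coeff]

theorem conv_of_limit {c : ℕ → ℕ} (hc : ∀ j, 2 ≤ c j) {F : LaurentSeries ℚ}
    (h : QAdicLimit c F) : Conv F :=
  summable_of_sum_range_le (fun k => by have := rr_pos; positivity) (sum_le_of_limit hc h)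

theorem coeff_shift (G : LaurentSeries ℚ) (k : ℤ) : (qv⁻¹ * G).coeff k = G.coeff (k + 1) := by
  have h1 : G = HahnSeries.single (1 : ℤ) (1 : ℚ) * (qv⁻¹ * G) := by
    change G = qv * (qv⁻¹ * G)
    rw [← mul_assoc, mul_inv_cancel₀ qv_ne, one_mul]
  conv_rhs => rw [h1]
  rw [HahnSeries.coeff_single_mul_add, one_mul]

theorem conv_shift {F : LaurentSeries ℚ} (h : Conv F) : Conv (qv⁻¹ * (F - 1)) := by
  unfold Conv at h ⊢
  have h1 := ((summable_nat_add_iff 1).2 h).mul_left rr⁻¹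
  refine h1.congr fun k => ?_
  rw [coeff_shift, HahnSeries.coeff_sub, HahnSeries.coeff_one, if_neg (by omega), sub_zero]
  have := rr_pos.ne'
  push_cast
  field_simp
  ring

theorem conv_all {Q : ℝ → LaurentSeries ℚ} (hQ : IsQReal Q) (x : ℝ) : Conv (Q x) := by
  have key : ∀ n : ℕ, ∀ x : ℝ, 1 ≤ x + n → Conv (Q x) := by
    intro n
    induction n with
    | zero =>
      intro x hx
      obtain ⟨c, hc, hl⟩ := hQ.1 x (by simpa using hx)
      exact conv_of_limit hc.1 hl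
    | succ n ih =>
      intro x hx
      have h1 := ih (x + 1) (by push_cast at hx; linarith)
      have h2 := hQ.2 (x + 1)
      rw [add_sub_cancel_right] at h2
      rw [h2]
      exact conv_shift h1
  obtain ⟨n, hn⟩ := exists_nat_ge (1 - x)
  exact key n x (by linarith)

theorem radius_ge {F : LaurentSeries ℚ} (h : Conv F) : ENNReal.ofReal rr ≤ radius F := by
  unfold radius
  have h1 : ENNReal.ofReal rr = ((rr.toNNReal : NNReal) : ENNReal) := rfl
  rw [h1]
  refine FormalMultilinearSeries.le_radius_of_summable _ ?_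
  refine h.congr fun k => ?_
  rw [FormalMultilinearSeries.ofScalars_norm, Real.coe_toNNReal _ rr_pos.le]
  congr 1
  rw [← Complex.ofReal_ratCast, Complex.norm_real, Real.norm_eq_abs]

end Pool.Agent.H154Z.QReal
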