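import Mathlib

set_option autoImplicit false

namespace Pool.Agent.H154Z.Var

/-- `psiC x H` is the sum of the von Mangoldt function over the integers `n ≥ 1` with
`x - H / 2 ≤ n ≤ x + H / 2`. -/
noncomputable def psiC (x H : ℝ) : ℝ :=
  ∑ n ∈ (Finset.Icc 1 ⌊x + H / 2⌋₊).filter (fun n : ℕ => x - H / 2 ≤ (n : ℝ)),
    ArithmeticFunction.vonMangoldt n

/-- The left side: `(1 / X) ∫_1^X |psiC x H - H| ^ 2 dx`. -/
noncomputable def variance (X H : ℝ) : ℝ :=
  (1 / X) * ∫ x in (1 : ℝ)..X, |psiC x H - H| ^ 2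

/-- The right side: `H (log X - log H - (γ + log (2 π)))`. -/
noncomputable def mainTerm (X H : ℝ) : ℝ :=
  H * (Real.log X - Real.log H - (Real.eulerMascheroniConstant + Real.log (2 * Real.pi)))

end Pool.Agent.H154Z.Var
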