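import Pool.Agent.H154Z.VarDefs

set_option autoImplicit false

namespace Pool.Agent.H154Z.Var

open Filter Topology MeasureTheory

theorem psiC_nonneg (x H : ℝ) : 0 ≤ psiC x H :=
  Finset.sum_nonneg fun _ _ => ArithmeticFunction.vonMangoldt_nonneg

theorem psiC_le (x H : ℝ) : psiC x H ≤ Chebyshev.psi (x + H / 2) := by
  unfold psiC Chebyshev.psi
  refine Finset.sum_le_sum_of_subset_of_nonneg ?_ fun _ _ _ => ArithmeticFunction.vonMangoldt_nonneg
  intro n hn
  rw [Finset.mem_filter, Finset.mem_Icc] at hn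
  rw [Finset.mem_Ioc]
  exact ⟨hn.1.1, hn.1.2⟩

theorem measurable_psiC (H : ℝ) : Measurable fun x => psiC x H := by
  classical
  have h : (fun x => psiC x H) = fun x => ∑' n : ℕ,
      Set.indicator {x : ℝ | 1 ≤ n ∧ n ≤ ⌊x + H / 2⌋₊ ∧ x - H / 2 ≤ (n : ℝ)}
        (fun _ => ArithmeticFunction.vonMangoldt n) x := by
    funext x
    unfold psiC
    rw [tsum_eq_sum (s := (Finset.Icc 1 ⌊x + H / 2⌋₊).filter (fun n : ℕ => x - H / 2 ≤ (n : ℝ)))]
    · refine Finset.sum_congr rfl fun n hn => ?_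
      rw [Finset.mem_filter, Finset.mem_Icc] at hn
      rw [Set.indicator_of_mem]
      exact ⟨hn.1.1, hn.1.2, hn.2⟩
    · intro n hn
      rw [Set.indicator_of_notMem]
      intro h
      apply hn
      rw [Finset.mem_filter, Finset.mem_Icc]
      exact ⟨⟨h.1, h.2.1⟩, h.2.2⟩
  rw [h]
  refine Measurable.tsum fun n => ?_
  refine Measurable.indicator measurable_const ?_
  have h1 : MeasurableSet {x : ℝ | n ≤ ⌊x + H / 2⌋₊} :=
    measurableSet_le measurable_const (Measurable.nat_floor (by fun_prop))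
  have h2 : MeasurableSet {x : ℝ | x - H / 2 ≤ (n : ℝ)} :=
    measurableSet_le (by fun_prop) measurable_const
  by_cases h0 : 1 ≤ n
  · simp only [h0, true_and]
    exact h1.inter h2
  · simp only [h0, false_and, Set.setOf_false]
    exact MeasurableSet.empty

theorem integrableOn_sq (H a b : ℝ) :
    IntegrableOn (fun x => |psiC x H - H| ^ 2) (Set.Ioc a b) := by
  refine Measure.integrableOn_of_bounded (M := (Chebyshev.psi (b + H / 2) + |H|) ^ 2)
    (by simp) ?_ ?_
  · exact (((measurable_psiC H).sub measurable_const).abs.pow_const 2).aestronglyMeasurable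
  · refine (ae_restrict_iff' measurableSet_Ioc).2 (Eventually.of_forall fun x hx => ?_)
    rw [Real.norm_eq_abs, abs_of_nonneg (by positivity)]
    refine pow_le_pow_left₀ (abs_nonneg _) ?_ 2
    have h1 := psiC_le x H
    have h2 : Chebyshev.psi (x + H / 2) ≤ Chebyshev.psi (b + H / 2) :=
      Chebyshev.psi_mono (by linarith [hx.2])
    have h3 := psiC_nonneg x H
    calc |psiC x H - H| ≤ |psiC x H| + |H| := abs_sub _ _
      _ ≤ _ := by rw [abs_of_nonneg h3]; linarith

/-- Chebyshev's bound in the form needed. -/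
theorem psi_small : ∀ᶠ H : ℝ in atTop, Chebyshev.psi (5 / 8 * H) ≤ 9 / 10 * H := by
  have h1 : Tendsto (fun y : ℝ => Real.log y / y ^ (1 / 2 : ℝ)) atTop (𝓝 0) :=
    (isLittleO_log_rpow_atTop (by norm_num : (0 : ℝ) < 1 / 2)).tendsto_div_nhds_zero
  have h2 : ∀ᶠ y : ℝ in atTop, Real.log y / y ^ (1 / 2 : ℝ) < 1 / 100 :=
    h1.eventually (gt_mem_nhds (by norm_num))
  have h3 : ∀ᶠ y : ℝ in atTop, Chebyshev.psi y ≤ 142 / 100 * y := by
    filter_upwards [h2, eventually_ge_atTop (1 : ℝ)] with y hy hy1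
    have hy0 : 0 < y := by linarith
    have h4 := Chebyshev.psi_le hy1
    have h5 : Real.log 4 ≤ 14 / 10 := by
      rw [show (4 : ℝ) = 2 ^ 2 by norm_num, Real.log_pow]
      have := Real.log_two_lt_d9
      push_cast
      linarith
    have h6 : 0 < y ^ (1 / 2 : ℝ) := Real.rpow_pos_of_pos hy0 _
    rw [div_lt_iff₀ h6, ← Real.sqrt_eq_rpow] at hy
    have h7 : √y * √y = y := Real.mul_self_sqrt hy0.le
    have h8 : 0 ≤ √y := Real.sqrt_nonneg y
    have h9 : √y * Real.log y ≤ √y * (1 / 100 * √y) := mul_le_mul_of_nonneg_left hy.le h8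
    nlinarith
  have h4 : Tendsto (fun H : ℝ => 5 / 8 * H) atTop atTop :=
    Tendsto.const_mul_atTop (by norm_num) tendsto_id
  filter_upwards [h4.eventually h3, eventually_ge_atTop (0 : ℝ)] with H hH hH0
  linarith

theorem variance_ge {X H : ℝ} (hH : 16 ≤ H) (hX : H ≤ X)
    (hψ : Chebyshev.psi (5 / 8 * H) ≤ 9 / 10 * H) :
    H ^ 3 / (1600 * X) ≤ variance X H := by
  have hX0 : 0 < X := by linarith
  have h1 : (1 : ℝ) ≤ X := by linarith
  unfold variance
  rw [intervalIntegral.integral_of_le h1]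
  have h2 : ∫ x in Set.Ioc (1 : ℝ) (H / 8), |psiC x H - H| ^ 2 ≤
      ∫ x in Set.Ioc (1 : ℝ) X, |psiC x H - H| ^ 2 := by
    refine setIntegral_mono_set (integrableOn_sq H 1 X)
      (Eventually.of_forall fun x => by positivity) ?_
    exact (Set.Ioc_subset_Ioc_right (by linarith)).eventuallyLE
  have h3 : ∫ _x in Set.Ioc (1 : ℝ) (H / 8), (H / 10) ^ 2 ≤
      ∫ x in Set.Ioc (1 : ℝ) (H / 8), |psiC x H - H| ^ 2 := by
    refine setIntegral_mono_on (by simp) (integrableOn_sq H 1 (H / 8)) measurableSet_Ioc ?_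
    intro x hx
    refine pow_le_pow_left₀ (by positivity) ?_ 2
    have h4 := psiC_le x H
    have h5 : Chebyshev.psi (x + H / 2) ≤ Chebyshev.psi (5 / 8 * H) :=
      Chebyshev.psi_mono (by linarith [hx.2])
    rw [abs_sub_comm]
    refine le_trans ?_ (le_abs_self _)
    linarith
  have h4 : ∫ _x in Set.Ioc (1 : ℝ) (H / 8), (H / 10) ^ 2 = (H / 8 - 1) * (H / 10) ^ 2 := by
    rw [setIntegral_const, Real.volume_real_Ioc_of_le (by linarith), smul_eq_mul]
  have h5 : H ^ 3 / 1600 ≤ (H / 8 - 1) * (H / 10) ^ 2 := by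
    have : H / 16 ≤ H / 8 - 1 := by linarith
    calc H ^ 3 / 1600 = H / 16 * (H / 10) ^ 2 := by ring
      _ ≤ _ := mul_le_mul_of_nonneg_right this (by positivity)
  calc H ^ 3 / (1600 * X) = 1 / X * (H ^ 3 / 1600) := by field_simp
    _ ≤ _ := mul_le_mul_of_nonneg_left (by linarith) (by positivity)

theorem main (δ : ℝ) (hδ : 0 < δ) (H : ℝ → ℝ)
    (hH : ∀ᶠ X : ℝ in atTop, X ^ (1 / 2 + δ) < H X ∧ H X < X ^ (1 - δ)) :
    Tendsto (fun X => variance X (H X) / mainTerm X (H X)) atTop atTop := by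
  set c : ℝ := Real.eulerMascheroniConstant + Real.log (2 * Real.pi) with hc
  have hc0 : 0 ≤ c := by
    have h1 := Real.one_half_lt_eulerMascheroniConstant
    have h2 : 0 ≤ Real.log (2 * Real.pi) := Real.log_nonneg (by linarith [Real.pi_gt_three])
    linarith
  have hHt : Tendsto H atTop atTop := by
    refine tendsto_atTop_mono' _ (hH.mono fun X h => h.1.le) ?_
    exact tendsto_rpow_atTop (by linarith)
  have hlog : ∀ᶠ X : ℝ in atTop, c + 1 ≤ δ * Real.log X :=
    (Tendsto.const_mul_atTop hδ Real.tendsto_log_atTop).eventually_ge_atTop _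
  have hlim : Tendsto (fun X : ℝ => (1 / 1600 : ℝ) * (X ^ (2 * δ) / Real.log X)) atTop atTop := by
    refine Tendsto.const_mul_atTop (by norm_num) ?_
    have h1 : Tendsto (fun y : ℝ => Real.log y / y ^ (2 * δ)) atTop (𝓝[>] 0) := by
      refine tendsto_nhdsWithin_iff.2 ⟨?_, ?_⟩
      · exact (isLittleO_log_rpow_atTop (by linarith : (0 : ℝ) < 2 * δ)).tendsto_div_nhds_zero
      · filter_upwards [eventually_gt_atTop (1 : ℝ)] with y hy
        exact div_pos (Real.log_pos hy) (Real.rpow_pos_of_pos (by linarith) _)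
    refine (tendsto_inv_nhdsGT_zero.comp h1).congr fun y => ?_
    simp [inv_div]
  refine tendsto_atTop_mono' _ ?_ hlim
  filter_upwards [hH, hHt.eventually psi_small, hHt.eventually_ge_atTop 16, hlog,
    eventually_gt_atTop (1 : ℝ)] with X hX hψ h16 hl hX1
  have hX0 : 0 < X := by linarith
  have hH0 : 0 < H X := by linarith
  have hHX : H X ≤ X := by
    refine hX.2.le.trans ?_
    calc X ^ (1 - δ) ≤ X ^ (1 : ℝ) := Real.rpow_le_rpow_of_exponent_le hX1.le (by linarith)
      _ = X := Real.rpow_one X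
  have hv := variance_ge h16 hHX hψ
  have hlH : Real.log (H X) ≤ (1 - δ) * Real.log X := by
    rw [← Real.log_rpow hX0]
    exact Real.log_le_log hH0 hX.2.le
  have hlH0 : 0 ≤ Real.log (H X) := Real.log_nonneg (by linarith)
  have hlX : 0 < Real.log X := Real.log_pos hX1
  have hm0 : 0 < mainTerm X (H X) := by
    unfold mainTerm
    refine mul_pos hH0 ?_
    rw [← hc]
    linarith
  have hm1 : mainTerm X (H X) ≤ H X * Real.log X := by
    unfold mainTerm
    refine mul_le_mul_of_nonneg_left ?_ hH0.le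
    rw [← hc]
    linarith
  have hsq : X * X ^ (2 * δ) ≤ H X ^ 2 := by
    have h1 : (X ^ (1 / 2 + δ)) ^ 2 ≤ H X ^ 2 :=
      pow_le_pow_left₀ (Real.rpow_nonneg hX0.le _) hX.1.le 2
    have h2 : (X ^ (1 / 2 + δ)) ^ 2 = X * X ^ (2 * δ) := by
      rw [← Real.rpow_natCast, ← Real.rpow_mul hX0.le,
        show (1 / 2 + δ) * ((2 : ℕ) : ℝ) = 1 + 2 * δ by push_cast; ring,
        Real.rpow_add hX0, Real.rpow_one]
    linarith
  show 1 / 1600 * (X ^ (2 * δ) / Real.log X) ≤ variance X (H X) / mainTerm X (H X)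
  rw [le_div_iff₀ hm0]
  calc 1 / 1600 * (X ^ (2 * δ) / Real.log X) * mainTerm X (H X)
      ≤ 1 / 1600 * (X ^ (2 * δ) / Real.log X) * (H X * Real.log X) :=
        mul_le_mul_of_nonneg_left hm1 (by positivity)
    _ = H X * (X * X ^ (2 * δ)) / (1600 * X) := by field_simp
    _ ≤ H X * H X ^ 2 / (1600 * X) := by gcongr
    _ = H X ^ 3 / (1600 * X) := by ring
    _ ≤ _ := hv

end Pool.Agent.H154Z.Var
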