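import Mathlib
import Pool.Agent.H884R2.Zeta.Poly

set_option autoImplicit false

open Set MeasureTheory Filter
open scoped ENNReal Topology

namespace Pool.Agent.H154Z.ZetaBody

open Pool.Agent.H884R2.Zeta

lemma hfin {d : ℕ} {P K : Set (Eu d)} (hP : IsPolytope P) (hK : IsCompact K)
    (hKn : (interior K).Nonempty) : Metric.hausdorffEDist P K ≠ ⊤ :=
  Metric.hausdorffEDist_ne_top_of_nonempty_of_bounded (hP.2.mono interior_subset)
    (hKn.mono interior_subset) (polytope_compact hP.1).isBounded hK.isBounded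

lemma bodyContent_le {d k : ℕ} {K : Set (Eu d)} (P : ℕ → Set (Eu d)) (hP : ∀ n, IsPolytope (P n))
    (hT : Tendsto (fun n => Metric.hausdorffDist (P n) K) atTop (𝓝 0)) :
    bodyContent k K ≤ liminf (fun n => content k (P n)) atTop :=
  iInf_le_of_le P (iInf_le_of_le hP (iInf_le_of_le hT le_rfl))

lemma bodyContent_le_content {d k : ℕ} {P : Set (Eu d)} (hP : IsPolytope P) :
    bodyContent k P ≤ content k P := by
  have := bodyContent_le (k := k) (K := P) (fun _ => P) (fun _ => hP) (by simp)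
  simpa using this

/-- cancellation law for closed convex sets -/
lemma ball_sub {k : ℕ} {A B : Set (Eu k)} (hA : Convex ℝ A) (hAc : IsClosed A) {c : Eu k}
    {r : ℝ} (hr : 0 < r) (hB : Metric.closedBall c (2 * r) ⊆ B)
    (h : ∀ x ∈ B, ∃ y ∈ A, dist y x < r) : Metric.closedBall c r ⊆ A := by
  intro z hz
  by_contra hzA
  obtain ⟨f, u, hfz, hfA⟩ := geometric_hahn_banach_point_closed hA hAc hzA
  set v := (InnerProductSpace.toDual ℝ (Eu k)).symm f with hv
  have hf : ∀ x, f x = inner ℝ v x := fun x => by simp [hv]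
  obtain ⟨y0, hy0, -⟩ := h c (hB (Metric.mem_closedBall_self (by positivity)))
  have hv0 : v ≠ 0 := by
    intro h0
    have h1 := hfA y0 hy0
    rw [hf, h0, inner_zero_left] at h1 hfz
    linarith
  have hn : 0 < ‖v‖ := norm_pos_iff.2 hv0
  have hx : z - (r / ‖v‖) • v ∈ Metric.closedBall c (2 * r) := by
    rw [Metric.mem_closedBall] at hz ⊢
    have h1 : dist (z - (r / ‖v‖) • v) z = r := by
      rw [dist_eq_norm, sub_sub_cancel_left, norm_neg, norm_smul, Real.norm_eq_abs,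
        abs_of_pos (by positivity), div_mul_cancel₀ _ hn.ne']
    linarith [dist_triangle (z - (r / ‖v‖) • v) z c]
  obtain ⟨y, hy, hd⟩ := h _ (hB hx)
  have h1 := hfA y hy
  have h2 : f y = f (z - (r / ‖v‖) • v) + inner ℝ v (y - (z - (r / ‖v‖) • v)) := by
    rw [← hf, ← map_add]
    congr 1
    abel
  have h3 : f (z - (r / ‖v‖) • v) = f z - r * ‖v‖ := by
    rw [map_sub, hf ((r / ‖v‖) • v), inner_smul_right, real_inner_self_eq_norm_sq]
    field_simp
  have h4 : inner ℝ v (y - (z - (r / ‖v‖) • v)) ≤ ‖v‖ * ‖y - (z - (r / ‖v‖) • v)‖ :=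
    real_inner_le_norm _ _
  rw [dist_eq_norm] at hd
  nlinarith

/-- lower bound for the content of a body through a ball in a coordinate projection -/
lemma le_bodyContent {d k : ℕ} {ι : Fin k → Fin d} (hι : Function.Injective ι) {K : Set (Eu d)}
    (hK : IsCompact K) (hKn : (interior K).Nonempty) {c : Eu k} {r : ℝ} (hr : 0 < r)
    (hB : Metric.closedBall c (2 * r) ⊆ cp ι '' K) :
    volume (Metric.closedBall (0 : Eu k) r) ≤ bodyContent k K := by
  refine le_iInf fun P => le_iInf fun hP => le_iInf fun hT => ?_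
  refine le_liminf_of_le (by isBoundedDefault) ?_
  filter_upwards [hT.eventually (gt_mem_nhds hr)] with m hm
  rw [← Measure.addHaar_closedBall_center volume c r]
  refine le_trans (measure_mono ?_) (volume_cp_le hι (hP m).1)
  refine ball_sub ((polytope_convex (hP m).1).linear_image _)
    ((polytope_compact (hP m).1).image (continuous_cp ι)).isClosed hr hB ?_
  rintro _ ⟨x, hx, rfl⟩
  obtain ⟨y, hy, hd⟩ := Metric.exists_dist_lt_of_hausdorffDist_lt' hx hm (hfin (hP m) hK hKn)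
  refine ⟨cp ι y, ⟨y, hy, rfl⟩, lt_of_le_of_lt ?_ hd⟩
  simpa using (lipschitz_cp hι).dist_le_mul y x

lemma body_ineq (n : ℕ) (C₁ c₁ : ℝ) (hC₁ : 0 < C₁) (hc₁ : 0 < c₁) : ∃ C₂ : ℝ, 0 < C₂ ∧
    ∀ K : Set (Eu (n + 4)), IsBodyC1 K → ∀ τ : ℝ, 0 < τ →
      bodyContent (n + 3) K ≤ ENNReal.ofReal (C₁ * τ ^ (n + 3)) →
      ENNReal.ofReal (c₁ * τ ^ (n + 4)) ≤ bodyContent (n + 4) K →
      bodyContent (n + 2) K ≤ ENNReal.ofReal (C₂ * τ) * bodyContent (n + 1) K := by
  obtain ⟨C₂, hC₂, hd⟩ := poly_ineq (n := n) (2 * C₁) (c₁ / 2) (by positivity) (by positivity)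
  obtain ⟨L, hL, hsucc⟩ := exists_succ_const n
  refine ⟨L * (C₂ + 2), by positivity, fun K hK τ hτ h1 h2 => ?_⟩
  obtain ⟨hKc, -, hKn, -⟩ := hK
  have h1' : bodyContent (n + 3) K < ENNReal.ofReal (2 * C₁ * τ ^ (n + 3)) := by
    refine lt_of_le_of_lt h1 ?_
    rw [ENNReal.ofReal_lt_ofReal_iff (by positivity)]
    have : 0 < C₁ * τ ^ (n + 3) := by positivity
    linarith
  rw [bodyContent] at h1'
  obtain ⟨P, h1'⟩ := iInf_lt_iff.1 h1'
  obtain ⟨hP, h1'⟩ := iInf_lt_iff.1 h1'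
  obtain ⟨hT, h1'⟩ := iInf_lt_iff.1 h1'
  have f1 := frequently_lt_of_liminf_lt (by isBoundedDefault) h1'
  have h2' : ENNReal.ofReal (c₁ / 2 * τ ^ (n + 4)) <
      liminf (fun m => content (n + 4) (P m)) atTop := by
    refine lt_of_lt_of_le ?_ (h2.trans (bodyContent_le P hP hT))
    rw [ENNReal.ofReal_lt_ofReal_iff (by positivity)]
    have : 0 < c₁ * τ ^ (n + 4) := by positivity
    linarith
  have f2 := eventually_lt_of_lt_liminf h2'
  obtain ⟨N, ⟨hN1, hN2⟩, hN3⟩ :=
    ((f1.and_eventually f2).and_eventually (hT.eventually (gt_mem_nhds hτ))).exists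
  obtain ⟨x0, hx0⟩ := hd (P N) (hP N) τ hτ hN1.le hN2.le
  have hKb : ∀ q ∈ K, ∀ j, |q j - x0 j| ≤ C₂ * τ + τ := by
    intro q hq j
    obtain ⟨p, hp, hpq⟩ := Metric.exists_dist_lt_of_hausdorffDist_lt' hq hN3 (hfin (hP N) hKc hKn)
    have a := hx0 p hp j
    have b := abs_coord_le (p - q) j
    rw [dist_eq_norm] at hpq
    rw [PiLp.sub_apply] at b
    rw [abs_le] at a b ⊢
    constructor <;> linarith [a.1, a.2, b.1, b.2]
  have hc0 : ENNReal.ofReal (L * (C₂ + 2) * τ) ≠ 0 := by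
    rw [Ne, ENNReal.ofReal_eq_zero, not_le]
    positivity
  rw [mul_comm, ← ENNReal.div_le_iff_le_mul (Or.inl hc0) (Or.inl ENNReal.ofReal_ne_top)]
  refine le_iInf fun Q => le_iInf fun hQ => le_iInf fun hTQ => ?_
  refine le_of_forall_gt_imp_ge_of_dense fun b hb => ?_
  have g1 := frequently_lt_of_liminf_lt (by isBoundedDefault) hb
  rw [ENNReal.div_le_iff_le_mul (Or.inl hc0) (Or.inl ENNReal.ofReal_ne_top)]
  refine (bodyContent_le Q hQ hTQ).trans ?_
  refine liminf_le_of_frequently_le ?_ (by isBoundedDefault)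
  refine (g1.and_eventually (hTQ.eventually (gt_mem_nhds hτ))).mono ?_
  rintro m ⟨hm1, hm2⟩
  have hQb : ∀ x ∈ Q m, ∀ j, |x j - x0 j| ≤ (C₂ + 2) * τ := by
    intro x hx j
    obtain ⟨q, hq, hxq⟩ := Metric.exists_dist_lt_of_hausdorffDist_lt hx hm2 (hfin (hQ m) hKc hKn)
    have a := hKb q hq j
    have b := abs_coord_le (x - q) j
    rw [dist_eq_norm] at hxq
    rw [PiLp.sub_apply] at b
    rw [abs_le] at a b ⊢
    constructor <;> linarith [a.1, a.2, b.1, b.2]
  refine (hsucc (Q m) (hQ m).1 _ x0 hQb).trans ?_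
  rw [mul_comm b, mul_assoc L]
  gcongr

lemma ball_sub_box {k : ℕ} {D : ℝ} :
    Metric.closedBall (WithLp.toLp 2 (fun _ => 1 / D / 2) : Eu k) (2 * (1 / D / 4)) ⊆
      {y : Eu k | ∀ j, 0 ≤ y j ∧ y j ≤ 1 / D} := by
  intro y hy j
  rw [Metric.mem_closedBall, dist_eq_norm] at hy
  have b := (abs_coord_le _ j).trans hy
  rw [PiLp.sub_apply, abs_le] at b
  have e : (WithLp.toLp 2 (fun _ => 1 / D / 2) : Eu k) j = 1 / D / 2 := rfl
  rw [e] at b
  constructor <;> linarith [b.1, b.2]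

theorem zetaBodies_not_convex (n : ℕ) : ¬ Convex ℝ (zetaBodies (n + 4)) := by
  have h := not_convex_of (n := n)
    {c | ∃ K : Set (Eu (n + 4)), IsBodyC1 K ∧ c = fun k => bodyContent k K} ?_ ?_
  · intro hc
    apply h
    have e : {z : Fin (n + 4) → ℝ | ∃ c ∈ {c : ℕ → ℝ≥0∞ | ∃ K : Set (Eu (n + 4)), IsBodyC1 K ∧
        c = fun k => bodyContent k K}, IsZetaVector c z} = zetaBodies (n + 4) := by
      ext z
      constructor
      · rintro ⟨c, ⟨P, hP, rfl⟩, hz⟩
        exact ⟨P, hP, hz⟩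
      · rintro ⟨P, hP, hz⟩
        exact ⟨_, ⟨P, hP, rfl⟩, hz⟩
    rw [e]
    exact hc
  · intro C₁ c₁ hC₁ hc₁
    obtain ⟨C₂, hC₂, hd⟩ := body_ineq n C₁ c₁ hC₁ hc₁
    refine ⟨C₂, hC₂, ?_⟩
    rintro c ⟨K, hK, rfl⟩ τ hτ h1 h2
    exact hd K hK τ hτ h1 h2
  · obtain ⟨C, hC, hc⟩ := spx_content (n + 2)
    set D : ℝ := ((n + 2 + 2 : ℕ) : ℝ) with hD
    have hD0 : 0 < D := by rw [hD]; positivity
    have hr : 0 < 1 / D / 4 := by positivity
    have hvol : ∀ k : ℕ, 0 < (volume (Metric.closedBall (0 : Eu k) (1 / D / 4))).toReal ∧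
        ENNReal.ofReal (volume (Metric.closedBall (0 : Eu k) (1 / D / 4))).toReal =
          volume (Metric.closedBall (0 : Eu k) (1 / D / 4)) := fun k =>
      ⟨ENNReal.toReal_pos (Metric.measure_closedBall_pos volume _ hr).ne'
        measure_closedBall_lt_top.ne, ENNReal.ofReal_toReal measure_closedBall_lt_top.ne⟩
    refine ⟨C, min (volume (Metric.closedBall (0 : Eu (n + 2)) (1 / D / 4))).toReal
      (volume (Metric.closedBall (0 : Eu (n + 4)) (1 / D / 4))).toReal, hC,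
      lt_min (hvol _).1 (hvol _).1, fun δ hδ hδ1 => ?_⟩
    have hP : IsPolytope (convexHull ℝ (spx (wt (n + 2) δ) : Set (Eu (n + 2 + 2)))) :=
      spx_polytope (by omega) (fun i => wt_pos hδ i)
    have hbody : IsBodyC1 (convexHull ℝ (spx (wt (n + 2) δ) : Set (Eu (n + 2 + 2)))) :=
      ⟨polytope_compact hP.1, polytope_convex hP.1, hP.2,
        lt_of_le_of_lt ((bodyContent_le_content hP).trans (hc δ hδ hδ1 1 (by omega)).1)
          ENNReal.ofReal_lt_top⟩
    refine ⟨_, ⟨_, hbody, rfl⟩, ?_, ?_, ?_, ?_⟩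
    · intro k _ hk
      exact (bodyContent_le_content hP).trans (hc δ hδ hδ1 k hk).1
    · exact (bodyContent_le_content hP).trans ((hc δ hδ hδ1 (n + 3) (by omega)).2 (by omega))
    · let ι : Fin (n + 2) → Fin (n + 2 + 2) := Fin.castLE (by omega)
      have hι : Function.Injective ι := Fin.castLE_injective _
      refine le_trans (ENNReal.ofReal_le_ofReal (min_le_left _ _)) ?_
      rw [(hvol _).2]
      refine le_bodyContent hι hbody.1 hbody.2.2.1 hr (ball_sub_box.trans ?_)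
      refine subset_trans ?_ (spx_proj_sup (by omega) hι (fun i => wt_pos hδ i))
      intro y hy j
      have hw : wt (n + 2) δ (ι j) = 1 := by
        unfold wt
        rw [if_pos]
        exact j.2
      rw [hw]
      exact hy j
    · rintro rfl
      have hι : Function.Injective (id : Fin (n + 2 + 2) → Fin (n + 2 + 2)) := Function.injective_id
      refine le_trans (ENNReal.ofReal_le_ofReal (min_le_right _ _)) ?_
      rw [(hvol _).2]
      refine le_bodyContent hι hbody.1 hbody.2.2.1 hr (ball_sub_box.trans ?_)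
      refine subset_trans ?_ (spx_proj_sup (by omega) hι (fun i => wt_pos one_pos i))
      intro y hy j
      have hw : wt (n + 2) 1 (id j) = 1 := by
        unfold wt
        split_ifs <;> rfl
      rw [hw]
      exact hy j

end Pool.Agent.H154Z.ZetaBody
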